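import Mathlib

/-!
# THEOREM DV (MP_edeaa2): definitions

`LaurentSeries R = R((w))` is `R((1/X))` with `w = 1/X`. `psi R e` is the substitution `w ↦ w^e`; its image is the closed subfield `R((w^e))`. `ei R : R[X] → R((1/X))`. `cm g`: the ring homomorphism `g` on coefficients. `B n x`: the order of `x` is at least `n`. `pc ω k`: the `k`-th coordinate (coefficientwise) of an element of `L((w))` in the basis `ω` of `L` over `F`.
-/

set_option autoImplicit false

open Polynomial

namespace Pool.Agent.H82.DV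

/-- `n ↦ e n` -/
def mulBy (e : ℕ) : ℤ →+ ℤ := AddMonoidHom.mulLeft (e : ℤ)

theorem mulBy_apply (e : ℕ) (n : ℤ) : mulBy e n = e * n := rfl

theorem mulBy_inj (e : ℕ) [h : NeZero e] : Function.Injective (mulBy e) := fun a b hab => by
  have h1 : (e : ℤ) * a = e * b := hab
  have h2 : (e : ℤ) ≠ 0 := by exact_mod_cast h.out
  exact mul_left_cancel₀ h2 h1

theorem mulBy_le (e : ℕ) [h : NeZero e] (a b : ℤ) : mulBy e a ≤ mulBy e b ↔ a ≤ b := by
  have h2 : (0 : ℤ) < e := by exact_mod_cast Nat.pos_of_ne_zero h.out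
  rw [mulBy_apply, mulBy_apply]
  exact mul_le_mul_iff_right₀ h2

/-- the substitution `w ↦ w^e` -/
noncomputable def psi (R : Type) [Field R] (e : ℕ) [NeZero e] :
    LaurentSeries R →+* LaurentSeries R :=
  HahnSeries.embDomainRingHom (mulBy e) (mulBy_inj e) (mulBy_le e)

/-- the embedding `R[X] → R((1/X))` -/
noncomputable def ei (R : Type) [Field R] : R[X] →+* LaurentSeries R :=
  eval₂RingHom HahnSeries.C (HahnSeries.single (-1) 1)

/-- a ring homomorphism applied to the coefficients -/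
noncomputable def cm {R S : Type} [Field R] [Field S] (g : R →+* S) :
    LaurentSeries R →+* LaurentSeries S where
  toFun x := x.map g
  map_one' := by
    ext n
    rw [HahnSeries.map_coeff, HahnSeries.coeff_one, HahnSeries.coeff_one]
    split_ifs
    · exact map_one g
    · exact map_zero g
  map_mul' x y := HahnSeries.map_mul (g : R →ₙ+* S)
  map_zero' := by
    ext n
    rw [HahnSeries.map_coeff, HahnSeries.coeff_zero, HahnSeries.coeff_zero, map_zero]
  map_add' x y := by
    ext n
    rw [HahnSeries.map_coeff, HahnSeries.coeff_add, HahnSeries.coeff_add, HahnSeries.map_coeff,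
      HahnSeries.map_coeff, map_add]

theorem cm_coeff {R S : Type} [Field R] [Field S] (g : R →+* S) (x : LaurentSeries R) (n : ℤ) :
    (cm g x).coeff n = g (x.coeff n) := rfl

/-- the order of `x` is at least `n` -/
def B {R : Type} [Field R] (n : ℤ) (x : LaurentSeries R) : Prop := ∀ j < n, x.coeff j = 0

/-- the `k`-th coordinate of `x ∈ L((w))` -/
noncomputable def pc {F L : Type} [Field F] [Field L] [Algebra F L] {d : ℕ}
    (ω : Module.Basis (Fin d) F L) (k : Fin d) (x : LaurentSeries L) : LaurentSeries F :=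
  x.map (ω.coord k)

theorem pc_coeff {F L : Type} [Field F] [Field L] [Algebra F L] {d : ℕ}
    (ω : Module.Basis (Fin d) F L) (k : Fin d) (x : LaurentSeries L) (n : ℤ) :
    (pc ω k x).coeff n = ω.repr (x.coeff n) k := rfl

/-- The data of the construction: `L / F` cyclic of degree `d` with generator `τ`, `t^e = s` with `e = d m`, a polynomial `b ∈ L[t]`, monic of degree `e κ`, exactly divisible by `t^m`, whose norm is `a (t^e)` with `a ∈ F[s]`. -/
structure Data (F L : Type) [Field F] [Field L] [Algebra F L] (d : ℕ) where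
  ω : Module.Basis (Fin d) F L
  τ : L ≃ₐ[F] L
  hd : 0 < d
  hτ : τ ^ d = 1
  fix : ∀ x : L, τ x = x → ∃ y : F, algebraMap F L y = x
  θ : L
  hθ : ∑ i ∈ Finset.range d, (τ ^ i) θ = 1
  m : ℕ
  hm : 0 < m
  κ : ℕ
  b₁ : L[X]
  hb₁ : b₁.coeff 0 ≠ 0
  mon : b₁.Monic
  deg : m + b₁.natDegree = d * m * κ
  a : F[X]
  ha : ∏ i ∈ Finset.range d, (X ^ m * b₁).map ((τ ^ i : L ≃ₐ[F] L) : L →+* L) =
    expand L (d * m) (a.map (algebraMap F L))

namespace Data

variable {F L : Type} [Field F] [Field L] [Algebra F L] {d : ℕ} (D : Data F L d)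

/-- `e = d m` -/
def e : ℕ := d * D.m

instance : NeZero D.e := ⟨Nat.mul_ne_zero D.hd.ne' D.hm.ne'⟩

/-- `b = t^m b₁` -/
noncomputable def b : L[X] := X ^ D.m * D.b₁

/-- `τ^i` as a ring homomorphism -/
noncomputable def tw (i : ℕ) : L →+* L := ((D.τ ^ i : L ≃ₐ[F] L) : L →+* L)

/-- `b τ(b) ... τ^(i-1)(b)` -/
noncomputable def bi (i : ℕ) : L[X] := ∏ l ∈ Finset.range i, D.b.map (D.tw l)

/-- `α τ(α) ... τ^(i-1)(α)` -/
noncomputable def ai (α : LaurentSeries L) (i : ℕ) : LaurentSeries L :=
  ∏ l ∈ Finset.range i, cm (D.tw l) α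

/-- the action on `L[t]`: `f ↦ ∑ x_i(t^e) (b τ)^i f` -/
noncomputable def Th (x : Fin d → L[X]) (f : L[X]) : L[X] :=
  ∑ i, expand L D.e (x i) * D.bi i * f.map (D.tw i)

/-- the action on `L((1/s))`: `g ↦ ∑ x_i(s) (α τ)^i g` -/
noncomputable def RR (α : LaurentSeries L) (x : Fin d → L[X]) (g : LaurentSeries L) :
    LaurentSeries L :=
  ∑ i, ei L (x i) * D.ai α i * cm (D.tw i) g

/-- the action on `L((1/t))`: `g ↦ ∑ x_i(t^e) (α(t^e) τ)^i g` -/
noncomputable def PR (α : LaurentSeries L) (x : Fin d → L[X]) (g : LaurentSeries L) :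
    LaurentSeries L :=
  ∑ i, psi L D.e (ei L (x i) * D.ai α i) * cm (D.tw i) g

/-- the matrix of the forms `pc_k (η ∑ ω_j X_j)` -/
noncomputable def G0 (η : LaurentSeries L) : Matrix (Fin d) (Fin d) (LaurentSeries F) :=
  Matrix.of fun k j => pc D.ω k (η * HahnSeries.C (D.ω j))

end Data

variable {F : Type} [Field F] {d : ℕ}

/-- the product of the linear forms given by the rows of `g` -/
noncomputable def form (g : Matrix (Fin d) (Fin d) (LaurentSeries F)) :
    MvPolynomial (Fin d) (LaurentSeries F) :=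
  ∏ i, ∑ j, MvPolynomial.C (g i j) * MvPolynomial.X j

/-- The form `Q (U x)`, `U` a matrix over `F[X]`. -/
noncomputable def subst (U : Matrix (Fin d) (Fin d) F[X])
    (Q : MvPolynomial (Fin d) (LaurentSeries F)) : MvPolynomial (Fin d) (LaurentSeries F) :=
  MvPolynomial.bind₁ (fun i => ∑ j, MvPolynomial.C (ei F (U i j)) * MvPolynomial.X j) Q

/-- `P` and `Q` differ by a factor and a linear change of variables in `GL_d(F[X])`. -/
def Equivalent (P Q : MvPolynomial (Fin d) (LaurentSeries F)) : Prop :=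
  ∃ (c : LaurentSeries F) (U : GL (Fin d) F[X]), c ≠ 0 ∧ P = MvPolynomial.C c * subst U.1 Q

/-- `P` is proportional to a form with coefficients in `F[X]`. -/
def Integral (P : MvPolynomial (Fin d) (LaurentSeries F)) : Prop :=
  ∃ (c : LaurentSeries F) (Q : MvPolynomial (Fin d) F[X]), c ≠ 0 ∧
    P = MvPolynomial.C c * MvPolynomial.map (ei F) Q

/-- The product of the forms given by `g` is bounded away from zero on `F[X]^d - 0`. -/
def Bdd (g : Matrix (Fin d) (Fin d) (LaurentSeries F)) : Prop :=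
  ∃ C : ℤ, ∀ x : Fin d → F[X], x ≠ 0 →
    ∏ i, ∑ j, g i j * ei F (x j) ≠ 0 ∧ (∏ i, ∑ j, g i j * ei F (x j)).order ≤ C

end Pool.Agent.H82.DV
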