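import Pool.Agent.H82.DV.Bs

/-!
# THEOREM DV: Hilbert 90 for one-units, explicit

`y = ∑_(i<d) (g τ(g) ... τ^(i-1)(g)) τ^i(θ)`; `g τ(y) = y` because `ai g d = 1` and `τ^d = 1`; `y.coeff 0 = ∑ τ^i θ = 1`, so `y` is a one-unit; `η = y⁻¹` (`LaurentSeries L` is a field): order `0` and coefficient `1` (`B_mul_coeff`, `HahnSeries.order_mul`).
-/

set_option autoImplicit false

open Polynomial

namespace Pool.Agent.H82.DV

variable {F L : Type} [Field F] [Field L] [Algebra F L] {d : ℕ}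

/-- inverses of one-units are one-units -/
theorem inv_unit {y : LaurentSeries L} (hy : B 0 y) (hy1 : y.coeff 0 = 1) :
    B 0 y⁻¹ ∧ (y⁻¹).coeff 0 = 1 := by
  have h0 : y ≠ 0 := by
    rintro rfl
    rw [HahnSeries.coeff_zero] at hy1
    exact zero_ne_one hy1
  have hi : y⁻¹ ≠ 0 := inv_ne_zero h0
  have o1 : 0 ≤ y.order := (B_order h0 0).1 hy
  have o2 : y.order ≤ 0 := HahnSeries.order_le_of_coeff_ne_zero (by rw [hy1]; exact one_ne_zero)
  have o3 : y.order + y⁻¹.order = 0 := by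
    rw [← HahnSeries.order_mul h0 hi, mul_inv_cancel₀ h0, HahnSeries.order_one]
  have hB : B 0 y⁻¹ := (B_order hi 0).2 (by omega)
  refine ⟨hB, ?_⟩
  have h1 := B_mul_coeff hy hB
  rw [mul_inv_cancel₀ h0, hy1, one_mul, add_zero, HahnSeries.coeff_one, if_pos rfl] at h1
  exact h1.symm

private theorem hn_tw (D : Data F L d) (l : ℕ) (g : LaurentSeries L) :
    cm (D.tw 1) (cm (D.tw l) g) = cm (D.tw (l + 1)) g := by
  ext n
  rw [cm_coeff, cm_coeff, cm_coeff]
  show (D.τ ^ 1) ((D.τ ^ l) (g.coeff n)) = (D.τ ^ (l + 1)) (g.coeff n)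
  rw [add_comm l 1, pow_add, AlgEquiv.mul_apply]

private theorem hn_succ (D : Data F L d) (g : LaurentSeries L) (i : ℕ) :
    D.ai g (i + 1) = g * cm (D.tw 1) (D.ai g i) := by
  unfold Data.ai
  have h0 : cm (D.tw 0) g = g := by
    ext n
    rw [cm_coeff]
    show (D.τ ^ 0) (g.coeff n) = g.coeff n
    rw [pow_zero, AlgEquiv.one_apply]
  rw [Finset.prod_range_succ', map_prod, h0, mul_comm,
    Finset.prod_congr rfl fun l _ => (hn_tw D l g).symm]

private theorem hn_unit (D : Data F L d) (g : LaurentSeries L) (hg : B 0 g) (hg1 : g.coeff 0 = 1) (i : ℕ) :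
    B 0 (D.ai g i) ∧ (D.ai g i).coeff 0 = 1 := by
  induction i with
  | zero =>
    have h : D.ai g 0 = 1 := by
      unfold Data.ai
      rw [Finset.range_zero, Finset.prod_empty]
    rw [h]
    exact ⟨B_one, by rw [HahnSeries.coeff_one, if_pos rfl]⟩
  | succ i ih =>
    rw [hn_succ]
    have h1 : B 0 (cm (D.tw 1) (D.ai g i)) := B_cm _ ih.1
    have h2 := B_mul hg h1
    have h3 := B_mul_coeff hg h1
    rw [add_zero] at h2 h3
    refine ⟨h2, ?_⟩
    rw [h3, hg1, one_mul, cm_coeff, ih.2, map_one]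

theorem h90 (D : Data F L d) (g : LaurentSeries L) (hg : B 0 g) (hg1 : g.coeff 0 = 1)
    (hN : D.ai g d = 1) :
    ∃ η : LaurentSeries L, B 0 η ∧ η.coeff 0 = 1 ∧ η * g = cm (D.tw 1) η := by
  set T : ℕ → LaurentSeries L := fun i => D.ai g i * HahnSeries.C ((D.τ ^ i) D.θ) with hT
  set y : LaurentSeries L := ∑ i ∈ Finset.range d, T i with hy
  have hTs : ∀ i, g * cm (D.tw 1) (T i) = T (i + 1) := by
    intro i
    rw [hT]
    show g * cm (D.tw 1) (D.ai g i * HahnSeries.C ((D.τ ^ i) D.θ)) =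
      D.ai g (i + 1) * HahnSeries.C ((D.τ ^ (i + 1)) D.θ)
    rw [map_mul, cm_C, hn_succ, ← mul_assoc]
    congr 2
    show (D.τ ^ 1) ((D.τ ^ i) D.θ) = (D.τ ^ (i + 1)) D.θ
    rw [add_comm i 1, pow_add, AlgEquiv.mul_apply]
  have hcyc : T d = T 0 := by
    rw [hT]
    show D.ai g d * HahnSeries.C ((D.τ ^ d) D.θ) = D.ai g 0 * HahnSeries.C ((D.τ ^ 0) D.θ)
    have h : D.ai g 0 = 1 := by
      unfold Data.ai
      rw [Finset.range_zero, Finset.prod_empty]
    rw [hN, h, D.hτ, pow_zero]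
  have hgy : g * cm (D.tw 1) y = y := by
    rw [hy, map_sum, Finset.mul_sum]
    rw [Finset.sum_congr rfl fun i _ => hTs i]
    have h1 := Finset.sum_range_succ' T d
    have h2 := Finset.sum_range_succ T d
    rw [h1, hcyc] at h2
    exact add_right_cancel h2
  have hB : B 0 y := by
    refine B_sum _ _ _ fun i _ => ?_
    have := B_mul (hn_unit D g hg hg1 i).1 (B_C ((D.τ ^ i) D.θ))
    rwa [add_zero] at this
  have hc : y.coeff 0 = 1 := by
    rw [hy]
    have h1 : (∑ i ∈ Finset.range d, T i).coeff 0 = ∑ i ∈ Finset.range d, (T i).coeff 0 := by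
      rw [HahnSeries.coeff_sum]
    rw [h1, ← D.hθ]
    refine Finset.sum_congr rfl fun i _ => ?_
    have h2 := B_mul_coeff (hn_unit D g hg hg1 i).1 (B_C ((D.τ ^ i) D.θ))
    rw [add_zero, (hn_unit D g hg hg1 i).2, one_mul, HahnSeries.C_apply, HahnSeries.coeff_single_same] at h2
    rw [hT]
    exact h2
  obtain ⟨e1, e2⟩ := inv_unit hB hc
  have hy0 : y ≠ 0 := by
    intro h
    rw [h, HahnSeries.coeff_zero] at hc
    exact zero_ne_one hc
  have hg0 : g ≠ 0 := by
    intro h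
    rw [h, HahnSeries.coeff_zero] at hg1
    exact zero_ne_one hg1
  refine ⟨y⁻¹, e1, e2, ?_⟩
  have h3 : cm (D.tw 1) y = y * g⁻¹ := by
    rw [eq_mul_inv_iff_mul_eq₀ hg0, mul_comm]
    exact hgy
  rw [map_inv₀, h3, mul_inv, inv_inv]

end Pool.Agent.H82.DV
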