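import Pool.Agent.H82.DV.Co
import Pool.Agent.H82.DV.Hn

/-!
# THEOREM DV: the matrix `G0 η` is invertible

All entries of `G0 η` have order `≥ 0` and the coefficients at `0` form the identity matrix (`η.coeff 0 = 1`), so the coefficient at `0` of the determinant is `1`; or: the matrix of multiplication by `η⁻¹` is the inverse: if `v` is a row vector with `v * G0 η = 0` ... (choose the easiest).
-/

set_option autoImplicit false

open Polynomial

namespace Pool.Agent.H82.DV

variable {F L : Type} [Field F] [Field L] [Algebra F L] {d : ℕ} (D : Data F L d)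

theorem G0_det {η : LaurentSeries L} (hη : B 0 η) (hη0 : η.coeff 0 = 1) :
    (D.G0 η).det ≠ 0 := by
  classical
  intro h
  obtain ⟨v, hv, hv0⟩ := Matrix.exists_mulVec_eq_zero_iff.mpr h
  set z : LaurentSeries L := ∑ j, cm (algebraMap F L) (v j) * HahnSeries.C (D.ω j) with hz
  have h1 : ∀ k, pc D.ω k (η * z) = 0 := by
    intro k
    have h2 : η * z = ∑ j, cm (algebraMap F L) (v j) * (η * HahnSeries.C (D.ω j)) := by
      rw [hz, Finset.mul_sum]
      refine Finset.sum_congr rfl fun j _ => ?_
      ring
    rw [h2, pc_sum]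
    have h3 : (∑ j, pc D.ω k (cm (algebraMap F L) (v j) * (η * HahnSeries.C (D.ω j)))) = (D.G0 η).mulVec v k := by
      simp only [Matrix.mulVec, dotProduct, Data.G0, Matrix.of_apply]
      refine Finset.sum_congr rfl fun j _ => ?_
      rw [pc_mul, mul_comm]
    rw [h3, hv0]
    rfl
  have h4 : η * z = 0 := by
    rw [pc_expand D.ω (η * z)]
    refine Finset.sum_eq_zero fun k _ => ?_
    rw [h1 k, map_zero, zero_mul]
  have hη1 : η ≠ 0 := by
    intro h0
    rw [h0, HahnSeries.coeff_zero] at hη0
    exact zero_ne_one hη0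
  have h5 : z = 0 := (mul_eq_zero.mp h4).resolve_left hη1
  apply hv
  funext k
  have h6 : pc D.ω k z = v k := by
    rw [hz, pc_sum]
    have h7 : ∀ j, pc D.ω k (cm (algebraMap F L) (v j) * HahnSeries.C (D.ω j)) = if k = j then v j else 0 := by
      intro j
      rw [pc_mul, pc_C]
      split_ifs
      · rw [mul_one]
      · rw [mul_zero]
    rw [Finset.sum_congr rfl fun j _ => h7 j]
    simp
  rw [← h6, h5]
  have h8 := pc_add D.ω k 0 0
  rw [add_zero] at h8
  simpa using h8

end Pool.Agent.H82.DV
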