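import Pool.Agent.H82.DV.Defs

/-!
# THEOREM DV: cancellation

Rows of `transvection i j θ * G`: row `i` is `G_i + θ G_j`, the others are `G_k`. Cancel the common factors (`k ≠ i`, nonzero linear forms because `det G ≠ 0`; `MvPolynomial` over a field is a domain): `G_i + θ G_j = c (G_i + θ' G_j)` (compare the coefficients of `X_k`), so by independence of the rows `c = 1` and `θ = c θ' = θ'`.
-/

set_option autoImplicit false

open Polynomial

namespace Pool.Agent.H82.DV

variable {F : Type} [Field F] {d : ℕ}

/-- the linear form with coefficients `v` -/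
private noncomputable def lin (v : Fin d → LaurentSeries F) : MvPolynomial (Fin d) (LaurentSeries F) :=
  ∑ k, MvPolynomial.C (v k) * MvPolynomial.X k

private theorem lin_coeff (v : Fin d → LaurentSeries F) (k : Fin d) :
    MvPolynomial.coeff (Finsupp.single k 1) (lin v) = v k := by
  classical
  unfold lin
  rw [MvPolynomial.coeff_sum, Finset.sum_eq_single k]
  · rw [MvPolynomial.coeff_C_mul, MvPolynomial.coeff_X, if_pos rfl, mul_one]
  · intro b _ hb
    rw [MvPolynomial.coeff_C_mul, MvPolynomial.coeff_X, if_neg, mul_zero]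
    intro h
    exact hb (Finsupp.single_left_injective one_ne_zero h)
  · intro h
    exact absurd (Finset.mem_univ k) h

private theorem lin_ne (v : Fin d → LaurentSeries F) (hv : v ≠ 0) : lin v ≠ 0 := by
  intro h
  apply hv
  funext k
  rw [← lin_coeff v k, h, MvPolynomial.coeff_zero]
  rfl

private theorem form_lin (g : Matrix (Fin d) (Fin d) (LaurentSeries F)) : form g = ∏ k, lin (g k) := rfl

private theorem row_same (G : Matrix (Fin d) (Fin d) (LaurentSeries F)) (i j : Fin d) (θ : LaurentSeries F) :
    (Matrix.transvection i j θ * G) i = fun k => G i k + θ * G j k := by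
  funext k
  exact Matrix.transvection_mul_apply_same i j k θ G

private theorem row_ne (G : Matrix (Fin d) (Fin d) (LaurentSeries F)) (i j k : Fin d) (θ : LaurentSeries F)
    (hk : k ≠ i) : (Matrix.transvection i j θ * G) k = G k := by
  funext l
  exact Matrix.transvection_mul_apply_of_ne i j k l hk θ G

private theorem form_gen (g G : Matrix (Fin d) (Fin d) (LaurentSeries F)) (i : Fin d) (v : Fin d → LaurentSeries F)
    (h1 : g i = v) (h2 : ∀ k, k ≠ i → g k = G k) :
    form g = lin v * ∏ k ∈ Finset.univ.erase i, lin (G k) := by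
  rw [form_lin, ← Finset.mul_prod_erase Finset.univ (fun k => lin (g k)) (Finset.mem_univ i), h1]
  refine congrArg (fun z => lin v * z) (Finset.prod_congr rfl fun k hk => ?_)
  rw [h2 k (Finset.ne_of_mem_erase hk)]

private theorem form_eq (G : Matrix (Fin d) (Fin d) (LaurentSeries F)) (i j : Fin d) (θ : LaurentSeries F) :
    form (Matrix.transvection i j θ * G) =
      lin (fun k => G i k + θ * G j k) * ∏ k ∈ Finset.univ.erase i, lin (G k) :=
  form_gen _ G i _ (row_same G i j θ) (fun k hk => row_ne G i j k θ hk)

theorem form_cancel (G : Matrix (Fin d) (Fin d) (LaurentSeries F)) (hG : G.det ≠ 0)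
    (i j : Fin d) (hij : i ≠ j) (θ θ' c : LaurentSeries F)
    (h : form (Matrix.transvection i j θ * G) =
      MvPolynomial.C c * form (Matrix.transvection i j θ' * G)) : θ = θ' := by
  rw [form_eq, form_eq, ← mul_assoc] at h
  have hP : (∏ k ∈ Finset.univ.erase i, lin (G k)) ≠ 0 := by
    refine Finset.prod_ne_zero_iff.2 fun k _ => lin_ne _ ?_
    intro h0
    apply hG
    exact Matrix.det_eq_zero_of_row_eq_zero k (fun l => congrFun h0 l)
  have h1 := mul_right_cancel₀ hP h
  have h2 : ∀ k, G i k + θ * G j k = c * (G i k + θ' * G j k) := by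
    intro k
    have h3 := congrArg (MvPolynomial.coeff (Finsupp.single k 1)) h1
    rw [lin_coeff, MvPolynomial.coeff_C_mul, lin_coeff] at h3
    exact h3
  have h4 : (Pi.single i (1 - c) + Pi.single j (θ - c * θ') : Fin d → LaurentSeries F) = 0 := by
    refine Matrix.eq_zero_of_vecMul_eq_zero hG ?_
    funext k
    rw [Matrix.add_vecMul, Pi.add_apply, Matrix.single_vecMul, Matrix.single_vecMul]
    simp only [Pi.smul_apply, smul_eq_mul, Pi.zero_apply]
    show (1 - c) * G i k + (θ - c * θ') * G j k = 0
    linear_combination h2 k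
  have h5 : 1 - c = 0 := by
    have h6 := congrFun h4 i
    rw [Pi.add_apply, Pi.single_eq_same, Pi.single_eq_of_ne hij, add_zero] at h6
    exact h6
  have h7 : θ - c * θ' = 0 := by
    have h6 := congrFun h4 j
    rw [Pi.add_apply, Pi.single_eq_same, Pi.single_eq_of_ne hij.symm, zero_add] at h6
    exact h6
  have h8 : c = 1 := (sub_eq_zero.1 h5).symm
  rw [h8, one_mul] at h7
  exact sub_eq_zero.1 h7

end Pool.Agent.H82.DV
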