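import Pool.Agent.H82.DV.Bs
import Pool.Agent.H82.DV.Fc

/-!
# THEOREM DV: uncountably many classes

`F` finite, so `F[X]`, `GL_d (F[X])` and `MvPolynomial (Fin d) F[X]` are countable; `LaurentSeries F` is uncountable (e.g. injection from `ℕ → Bool` by `HahnSeries.ofPowerSeries`). If every `form (T_θ G)`, `T_θ = transvection i j (psi θ)`, were equivalent to some `f n` by `(c, U)`, then `θ ↦ (n, U)` would not be injective, so there would be `θ ≠ θ'` and `c` with `form (T_θ G) = C c * form (T_θ' G)`; `form_cancel` and injectivity of `psi` give `θ = θ'`.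
-/

set_option autoImplicit false

open Polynomial

namespace Pool.Agent.H82.DV

variable {F : Type} [Field F] {d : ℕ}

private theorem bool_unc : Uncountable (ℕ → Bool) := by
  rw [uncountable_iff_forall_not_surjective]
  intro g hg
  obtain ⟨n, hn⟩ := hg (fun k => !(g k k))
  have h1 := congrFun hn n
  simp at h1

private theorem poly_cnt (R : Type) [CommRing R] [Countable R] : Countable R[X] := by
  rw [← Cardinal.mk_le_aleph0_iff]
  refine Polynomial.cardinalMk_le_max.trans ?_
  rw [max_le_iff]
  exact ⟨Cardinal.mk_le_aleph0_iff.2 inferInstance, le_rfl⟩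

private theorem mv_cnt (d : ℕ) (R : Type) [CommRing R] [Countable R] : Countable (MvPolynomial (Fin d) R) := by
  rw [← Cardinal.mk_le_aleph0_iff]
  refine MvPolynomial.cardinalMk_le_max.trans ?_
  rw [max_le_iff, max_le_iff]
  exact ⟨⟨Cardinal.mk_le_aleph0_iff.2 inferInstance, Cardinal.mk_le_aleph0_iff.2 inferInstance⟩, le_rfl⟩

private noncomputable def ths (F : Type) [Field F] (g : ℕ → Bool) : LaurentSeries F :=
  HahnSeries.ofPowerSeries ℤ F (PowerSeries.mk fun n => if g n then (1 : F) else 0)

private theorem ths_inj (F : Type) [Field F] : Function.Injective (ths F) := by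
  intro g g' h
  have h2 := HahnSeries.ofPowerSeries_injective h
  funext n
  have h3 := congrArg (PowerSeries.coeff n) h2
  rw [PowerSeries.coeff_mk, PowerSeries.coeff_mk] at h3
  by_cases h4 : g n = true
  · by_cases h5 : g' n = true
    · rw [h4, h5]
    · rw [if_pos h4, if_neg h5] at h3
      exact absurd h3 one_ne_zero
  · by_cases h5 : g' n = true
    · rw [if_neg h4, if_pos h5] at h3
      exact absurd h3.symm one_ne_zero
    · rw [Bool.not_eq_true] at h4 h5
      rw [h4, h5]

private theorem ths_B (F : Type) [Field F] (g : ℕ → Bool) : B 0 (ths F g) := by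
  intro j hj
  unfold ths
  have h1 := PowerSeries.coeff_coe (R := F) (f := PowerSeries.mk fun n => if g n then (1 : F) else 0) (i := j)
  rw [if_pos hj] at h1
  exact h1

theorem unc [Finite F] (G : Matrix (Fin d) (Fin d) (LaurentSeries F)) (hG : G.det ≠ 0)
    (e : ℕ) [NeZero e] (i j : Fin d) (hij : i ≠ j)
    (f : ℕ → MvPolynomial (Fin d) (LaurentSeries F)) :
    ∃ θ : LaurentSeries F, B 0 θ ∧ ∀ n,
      ¬ Equivalent (form (Matrix.transvection i j (psi F e θ) * G)) (f n) := by
  by_contra hcon
  have hcon2 : ∀ g : ℕ → Bool, ∃ n, Equivalent (form (Matrix.transvection i j (psi F e (ths F g)) * G)) (f n) := by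
    intro g
    by_contra h1
    exact hcon ⟨ths F g, ths_B F g, fun n hn => h1 ⟨n, hn⟩⟩
  choose n hn using hcon2
  choose c U hc hP using hn
  have hcF : Countable F := inferInstance
  have hcX : Countable F[X] := poly_cnt F
  have hcG : Countable (GL (Fin d) F[X]) := by
    have h1 : Countable (Matrix (Fin d) (Fin d) F[X]) := by
      unfold Matrix
      infer_instance
    exact Function.Injective.countable (f := fun u : GL (Fin d) F[X] => (u : Matrix (Fin d) (Fin d) F[X]))
      (fun a b hab => Units.ext hab)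
  have hu := bool_unc
  have hni : ¬ Function.Injective (fun g : ℕ → Bool => (n g, U g)) := by
    intro hinj
    have h1 : Countable (ℕ → Bool) := hinj.countable
    exact not_countable (α := ℕ → Bool) h1
  rw [Function.Injective] at hni
  push Not at hni
  obtain ⟨θ, θ', h1, h2⟩ := hni
  rw [Prod.mk.injEq] at h1
  refine h2 (ths_inj F ((psi F e).injective (form_cancel G hG i j hij _ _ (c θ * (c θ')⁻¹) ?_)))
  rw [hP θ, hP θ', h1.1, h1.2, ← mul_assoc, ← MvPolynomial.C_mul, mul_assoc, inv_mul_cancel₀ (hc θ'), mul_one]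

theorem integral_seq [Finite F] : ∃ f : ℕ → MvPolynomial (Fin d) (LaurentSeries F),
    ∀ P : MvPolynomial (Fin d) (LaurentSeries F), Integral P → ∃ n, Equivalent P (f n) := by
  have hcX : Countable F[X] := poly_cnt F
  have hcM : Countable (MvPolynomial (Fin d) F[X]) := mv_cnt d F[X]
  obtain ⟨g, hg⟩ := exists_surjective_nat (MvPolynomial (Fin d) F[X])
  refine ⟨fun n => MvPolynomial.map (ei F) (g n), fun P hP => ?_⟩
  obtain ⟨c, Q, hc, rfl⟩ := hP
  obtain ⟨n, rfl⟩ := hg Q
  refine ⟨n, c, 1, hc, ?_⟩
  congr 1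
  unfold subst
  have h1 : (fun i : Fin d => ∑ j, MvPolynomial.C (ei F ((1 : GL (Fin d) F[X]).1 i j)) *
      MvPolynomial.X j) = (MvPolynomial.X : Fin d → MvPolynomial (Fin d) (LaurentSeries F)) := by
    funext i
    rw [Units.val_one, Finset.sum_eq_single i]
    · rw [Matrix.one_apply_eq, map_one, MvPolynomial.C_1, one_mul]
    · intro j _ hj
      rw [Matrix.one_apply_ne hj.symm, map_zero, MvPolynomial.C_0, zero_mul]
    · intro h
      exact absurd (Finset.mem_univ _) h
  rw [h1, MvPolynomial.bind₁_X_left]
  rfl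

end Pool.Agent.H82.DV
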