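import Pool.Agent.H82.DV.Bd
import Pool.Agent.H82.DV.Gd
import Pool.Agent.H82.DV.Un

/-!
# THEOREM DV: the core

`Y = transvection 0 1 θ` (inverse `transvection 0 1 (-θ)`), `g = (Y.map psi) * G0 η`.
-/

set_option autoImplicit false

open Polynomial

namespace Pool.Agent.H82.DV

variable {F L : Type} [Field F] [Field L] [Algebra F L] {d : ℕ}

private theorem B_neg' {n : ℤ} {x : LaurentSeries F} (hx : B n x) : B n (-x) := by
  intro j hj
  rw [HahnSeries.coeff_neg, hx j hj, neg_zero]

theorem transvection_B (i j : Fin d) (θ : LaurentSeries F) (hθ : B 0 θ) (a b : Fin d) :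
    B 0 (Matrix.transvection i j θ a b) := by
  have h1 : Matrix.single i j θ a b = if i = a ∧ j = b then θ else 0 :=
    Matrix.single_apply _ _ _ _ _
  rw [Matrix.transvection, Matrix.add_apply, Matrix.one_apply, h1]
  refine B_add ?_ ?_
  · split_ifs
    · exact B_one
    · exact B_zero _
  · split_ifs
    · exact hθ
    · exact B_zero _

theorem map_transvection (e : ℕ) [NeZero e] (i j : Fin d) (θ : LaurentSeries F) :
    (Matrix.transvection i j θ).map (psi F e) = Matrix.transvection i j (psi F e θ) := by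
  refine Matrix.ext fun a b => ?_
  have h1 : ∀ t : LaurentSeries F, Matrix.single i j t a b = if i = a ∧ j = b then t else 0 :=
    fun t => Matrix.single_apply _ _ _ _ _
  rw [Matrix.map_apply, Matrix.transvection, Matrix.transvection, Matrix.add_apply,
    Matrix.add_apply, map_add, Matrix.one_apply, h1, h1, apply_ite (psi F e),
    apply_ite (psi F e), map_one, map_zero]

/-- The product of the linear forms given by `g` at the nonzero vectors `x` of `F[X]^d` is
different from `0` and at least `q^(-C)` in absolute value (its order in `w = 1/X` is at most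
`C`). -/
def BddBy (C : ℤ) (g : Matrix (Fin d) (Fin d) (LaurentSeries F)) : Prop :=
  ∀ x : Fin d → F[X], x ≠ 0 →
    ∏ i, ∑ j, g i j * ei F (x j) ≠ 0 ∧ (∏ i, ∑ j, g i j * ei F (x j)).order ≤ C

theorem core [Finite F] (D : Data F L d) (hd : 2 ≤ d) :
    ∃ (e : ℕ) (_ : NeZero e) (g₀ : GL (Fin d) (LaurentSeries F)),
      (∀ Y : GL (Fin d) (LaurentSeries F), ∃ C : ℤ, BddBy C (Y.1.map (psi F e) * g₀.1)) ∧
      ∃ C : ℤ, ∀ f : ℕ → MvPolynomial (Fin d) (LaurentSeries F),
        ∃ Y : GL (Fin d) (LaurentSeries F), Y.1.det = 1 ∧ (∀ i j, B 0 (Y.1 i j)) ∧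
          BddBy C (Y.1.map (psi F e) * g₀.1) ∧
          ¬ Integral (form (Y.1.map (psi F e) * g₀.1)) ∧
          ∀ n, ¬ Equivalent (form (Y.1.map (psi F e) * g₀.1)) (f n) := by
  obtain ⟨α, η, hα, hη, hη0, h⟩ := analytic D
  have hdet := G0_det D hη hη0
  let i : Fin d := ⟨0, by omega⟩
  let j : Fin d := ⟨1, by omega⟩
  have hij : i ≠ j := by
    intro h1
    have h2 := congrArg Fin.val h1
    simp [i, j] at h2
  refine ⟨D.e, inferInstance, Matrix.GeneralLinearGroup.mkOfDetNeZero _ hdet, ?_,
    (D.e : ℤ) * (d * (D.κ * d + 0) + d), ?_⟩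
  · intro Y
    exact bdd D hα hη hη0 h Y.1 (Y⁻¹).1 (by rw [← Units.val_mul, inv_mul_cancel, Units.val_one])
  · intro f
    obtain ⟨f₂, hf₂⟩ := integral_seq (F := F) (d := d)
    let f₃ : ℕ → MvPolynomial (Fin d) (LaurentSeries F) := fun n =>
      if Even n then f (n / 2) else f₂ (n / 2)
    obtain ⟨θ, hθ0, hθ⟩ := unc (D.G0 η) hdet D.e i j hij f₃
    have hY : (Matrix.transvection i j θ).det = 1 := Matrix.det_transvection_of_ne i j hij θ
    have hY0 : (Matrix.transvection i j θ).det ≠ 0 := by
      rw [hY]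
      exact one_ne_zero
    have hform : ∀ n, ¬ Equivalent (form ((Matrix.transvection i j θ).map (psi F D.e) *
        D.G0 η)) (f₃ n) := by
      rw [map_transvection]
      exact hθ
    refine ⟨Matrix.GeneralLinearGroup.mkOfDetNeZero _ hY0, hY,
      fun a b => transvection_B i j θ hθ0 a b, ?_, ?_, ?_⟩
    · intro x hx
      exact bdd_unif D hα hη hη0 h (Matrix.transvection i j θ) (Matrix.transvection i j (-θ))
        (by rw [Matrix.transvection_mul_transvection_same i j hij, neg_add_cancel,
              Matrix.transvection_zero]) 0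
        (fun a b => by
          rw [neg_zero]
          exact transvection_B i j (-θ) (B_neg' hθ0) a b) x hx
    · intro h1
      obtain ⟨n, hn⟩ := hf₂ _ h1
      have h2 := hform (2 * n + 1)
      have h3 : f₃ (2 * n + 1) = f₂ n := by
        have h4 : ¬ Even (2 * n + 1) := by
          rw [Nat.not_even_iff_odd]
          exact ⟨n, rfl⟩
        have h5 : (2 * n + 1) / 2 = n := by omega
        simp only [f₃, h4, if_false, h5]
      rw [h3] at h2
      exact h2 hn
    · intro n
      have h2 := hform (2 * n)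
      have h3 : f₃ (2 * n) = f n := by
        have h4 : Even (2 * n) := even_two_mul n
        have h5 : (2 * n) / 2 = n := by omega
        simp only [f₃, h4, if_true, h5]
      rw [h3] at h2
      exact h2

end Pool.Agent.H82.DV
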