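import Pool.Agent.H82.DV.Bs

/-!
# THEOREM DV: abstract dimension count

`abs_count`: the conditions are `∑ (c p + a)` linear equations (the coefficients at `j`, `-a ≤ j < c p`), fewer than the dimension (`LinearMap.ker_ne_bot_of_finrank_lt` or similar, target `((p : P) × Fin (c p + a).toNat) → F`).
-/

set_option autoImplicit false

open Polynomial

namespace Pool.Agent.H82.DV

theorem abs_count {F : Type} [Field F] {V : Type} [AddCommGroup V] [Module F V]
    [FiniteDimensional F V] {P : Type} [Fintype P] (T : P → V →ₗ[F] LaurentSeries F) (a : ℤ)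
    (hT : ∀ p v, B (-a) (T p v)) (c : P → ℤ) (hc : ∀ p, 0 ≤ c p + a)
    (hM : ∑ p, (c p + a) < Module.finrank F V) :
    ∃ v, v ≠ 0 ∧ ∀ p, B (c p) (T p v) := by
  classical
  let Φ : V →ₗ[F] (((p : P) × Fin (c p + a).toNat) → F) :=
    { toFun := fun v q => (T q.1 v).coeff (-a + (q.2 : ℤ))
      map_add' := fun v w => by
        funext q
        show (T q.1 (v + w)).coeff _ = (T q.1 v).coeff _ + (T q.1 w).coeff _
        rw [map_add, HahnSeries.coeff_add]
      map_smul' := fun r v => by
        funext q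
        show (T q.1 (r • v)).coeff _ = r * (T q.1 v).coeff _
        rw [map_smul, HahnSeries.coeff_smul, smul_eq_mul] }
  have h1 : Module.finrank F (((p : P) × Fin (c p + a).toNat) → F) < Module.finrank F V := by
    rw [Module.finrank_fintype_fun_eq_card, Fintype.card_sigma]
    have h2 : ((∑ p, Fintype.card (Fin (c p + a).toNat) : ℕ) : ℤ) = ∑ p, (c p + a) := by
      rw [Nat.cast_sum]
      refine Finset.sum_congr rfl fun p _ => ?_
      rw [Fintype.card_fin]
      exact Int.toNat_of_nonneg (hc p)
    have h3 : ((∑ p, Fintype.card (Fin (c p + a).toNat) : ℕ) : ℤ) < (Module.finrank F V : ℤ) := by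
      rw [h2]
      exact hM
    exact_mod_cast h3
  have h4 : LinearMap.ker Φ ≠ ⊥ := LinearMap.ker_ne_bot_of_finrank_lt h1
  obtain ⟨v, hv, hv0⟩ := (Submodule.ne_bot_iff _).1 h4
  refine ⟨v, hv0, fun p j hj => ?_⟩
  by_cases hja : j < -a
  · exact hT p v j hja
  · have h5 : (j + a).toNat < (c p + a).toNat := by omega
    have h6 := congrFun (LinearMap.mem_ker.1 hv) ⟨p, ⟨(j + a).toNat, h5⟩⟩
    have h7 : (T p v).coeff (-a + ((j + a).toNat : ℤ)) = 0 := h6
    rw [Int.toNat_of_nonneg (by omega)] at h7
    rw [show -a + (j + a) = j by ring] at h7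
    exact h7

end Pool.Agent.H82.DV
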