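import Pool.Agent.H82.DV.Ns
import Pool.Agent.H82.DV.Hn

/-!
# THEOREM DV: the analytic part

`b = D.b` is monic of degree `e κ`: `ei b = single (-(e κ)) 1 * b°`, `b°` a one-unit. `D.bi d = expand e (a.map)` (field `ha`), so `a` is monic of degree `d κ` and `u = single (d κ) 1 * ei a` is a one-unit; `norm_surj` gives `α°` with `ai α° d = cm u`; `α = single (-κ) 1 * α°`. `g = b° * (psi α°)⁻¹` has `ai g d = 1` (`ai` is multiplicative, `ai (psi x) = psi (ai x)`, `ai (ei b) d = ei (bi d) = psi (cm (ei a))`); `h90` gives `η`.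
-/

set_option autoImplicit false

open Polynomial

namespace Pool.Agent.H82.DV

variable {F L : Type} [Field F] [Field L] [Algebra F L] {d : ℕ} (D : Data F L d)

theorem ai_mul (x y : LaurentSeries L) (i : ℕ) : D.ai (x * y) i = D.ai x i * D.ai y i := by
  unfold Data.ai
  rw [← Finset.prod_mul_distrib]
  exact Finset.prod_congr rfl fun l _ => map_mul _ _ _

theorem ai_psi (x : LaurentSeries L) (i : ℕ) :
    D.ai (psi L D.e x) i = psi L D.e (D.ai x i) := by
  unfold Data.ai
  rw [map_prod]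
  exact Finset.prod_congr rfl fun l _ => (psi_cm _ _ _).symm

theorem ai_ei (i : ℕ) : D.ai (ei L D.b) i = ei L (D.bi i) := by
  unfold Data.ai Data.bi
  rw [map_prod]
  exact Finset.prod_congr rfl fun l _ => cm_ei _ _

private theorem an_bmon : D.b.Monic ∧ D.b.natDegree = D.e * D.κ := by
  have h1 : (X ^ D.m : L[X]).Monic := monic_X_pow D.m
  refine ⟨h1.mul D.mon, ?_⟩
  unfold Data.b Data.e
  rw [h1.natDegree_mul D.mon, natDegree_X_pow, D.deg]

private theorem an_bi : D.bi d = expand L D.e (D.a.map (algebraMap F L)) := D.ha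

private theorem an_bid : (D.bi d).Monic ∧ (D.bi d).natDegree = d * (D.e * D.κ) := by
  obtain ⟨h1, h2⟩ := an_bmon D
  unfold Data.bi
  have h3 : ∀ l ∈ Finset.range d, (D.b.map (D.tw l)).Monic := fun l _ => h1.map _
  refine ⟨monic_prod_of_monic _ _ h3, ?_⟩
  rw [natDegree_prod_of_monic _ _ h3]
  rw [Finset.sum_congr rfl fun l _ => (h1.natDegree_map (D.tw l)).trans h2]
  rw [Finset.sum_const, Finset.card_range, smul_eq_mul]

private theorem an_a : D.a.natDegree = d * D.κ ∧ D.a.coeff (d * D.κ) = 1 := by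
  obtain ⟨h1, h2⟩ := an_bid D
  have he : 0 < D.e := Nat.pos_of_ne_zero (NeZero.ne D.e)
  rw [an_bi] at h1 h2
  have h3 : (D.a.map (algebraMap F L)).Monic := (monic_expand_iff he).1 h1
  rw [natDegree_expand, natDegree_map] at h2
  have h4 : D.a.natDegree = d * D.κ := by
    apply Nat.eq_of_mul_eq_mul_right he
    rw [h2]
    ring
  refine ⟨h4, ?_⟩
  have h5 : (algebraMap F L) (D.a.coeff (d * D.κ)) = 1 := by
    rw [← coeff_map, ← h4, ← natDegree_map (f := algebraMap F L)]
    exact h3.coeff_natDegree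
  apply (algebraMap F L).injective
  rw [h5, map_one]

private theorem an_unit {R : Type} [Field R] (p : R[X]) (N : ℕ) (h : p.natDegree ≤ N)
    (h1 : p.coeff N = 1) :
    B 0 (HahnSeries.single (N : ℤ) (1 : R) * ei R p) ∧
      (HahnSeries.single (N : ℤ) (1 : R) * ei R p).coeff 0 = 1 := by
  have h2 := B_mul (B_single (N : ℤ) (1 : R)) (B_ei h)
  have h3 := B_mul_coeff (B_single (N : ℤ) (1 : R)) (B_ei h)
  rw [add_neg_cancel] at h2 h3
  refine ⟨h2, ?_⟩
  rw [h3, HahnSeries.coeff_single_same, ei_coeff, h1, one_mul]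

private theorem an_single (n : ℤ) (i : ℕ) :
    D.ai (HahnSeries.single n (1 : L)) i = HahnSeries.single ((i : ℤ) * n) (1 : L) := by
  unfold Data.ai
  rw [Finset.prod_congr rfl fun l _ => (cm_single (D.tw l) n (1 : L)).trans
    (congrArg (HahnSeries.single n) (map_one _))]
  rw [Finset.prod_const, Finset.card_range, HahnSeries.single_pow, one_pow, nsmul_eq_mul]

theorem analytic : ∃ α η : LaurentSeries L, B (-(D.κ : ℤ)) α ∧ B 0 η ∧ η.coeff 0 = 1 ∧
    η * ei L D.b = psi L D.e α * cm (D.tw 1) η := by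
  obtain ⟨hb1, hb2⟩ := an_bmon D
  obtain ⟨ha1, ha2⟩ := an_a D
  obtain ⟨hu, hu1⟩ := an_unit D.a (d * D.κ) ha1.le ha2
  obtain ⟨hB, hB1⟩ := an_unit D.b (D.e * D.κ) hb2.le (by rw [← hb2]; exact hb1.coeff_natDegree)
  obtain ⟨α, hα, hα1, hα2⟩ := norm_surj D _ hu hu1
  set b0 : LaurentSeries L := HahnSeries.single ((D.e * D.κ : ℕ) : ℤ) (1 : L) * ei L D.b with hb0
  set P : LaurentSeries L := psi L D.e α with hP
  have hPB : B 0 P := by
    have := B_psi D.e hα
    rwa [mul_zero] at this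
  have hP1 : P.coeff 0 = 1 := by
    have := psi_coeff D.e α 0
    rw [mul_zero] at this
    rw [hP, this, hα1]
  have hP0 : P ≠ 0 := by
    intro h
    rw [h, HahnSeries.coeff_zero] at hP1
    exact zero_ne_one hP1
  obtain ⟨hi, hi1⟩ := inv_unit hPB hP1
  have hg : B 0 (b0 * P⁻¹) := by
    have := B_mul hB hi
    rwa [add_zero] at this
  have hg1 : (b0 * P⁻¹).coeff 0 = 1 := by
    have := B_mul_coeff hB hi
    rw [add_zero] at this
    rw [this, hB1, hi1, one_mul]
  have hai : D.ai b0 d = D.ai P d := by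
    rw [hP, ai_psi, hα2, hb0, ai_mul, ai_ei, an_bi, ← psi_ei, ← cm_ei, an_single, map_mul, map_mul,
      cm_single, (algebraMap F L).map_one, psi_single]
    congr 2
    push_cast
    ring_nf
  have haP : D.ai P d ≠ 0 := by
    unfold Data.ai
    rw [Finset.prod_ne_zero_iff]
    intro l _ h
    exact hP0 ((map_eq_zero (cm (D.tw l))).1 h)
  have hN : D.ai (b0 * P⁻¹) d = 1 := by
    have h1 : D.ai (b0 * P⁻¹) d * D.ai P d = D.ai P d := by
      rw [← ai_mul, mul_assoc, inv_mul_cancel₀ hP0, mul_one, hai]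
    exact mul_right_cancel₀ haP (h1.trans (one_mul _).symm)
  obtain ⟨η, hη, hη1, hη2⟩ := h90 D _ hg hg1 hN
  refine ⟨HahnSeries.single (-(D.κ : ℤ)) (1 : L) * α, η, ?_, hη, hη1, ?_⟩
  · have := B_mul (B_single (-(D.κ : ℤ)) (1 : L)) hα
    rwa [add_zero] at this
  · rw [← hη2, map_mul, psi_single, hb0, ← hP]
    have h1 : (HahnSeries.single ((D.e : ℤ) * -(D.κ : ℤ)) (1 : L) : LaurentSeries L) *
        HahnSeries.single ((D.e * D.κ : ℕ) : ℤ) (1 : L) = 1 := by
      rw [HahnSeries.single_mul_single, one_mul]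
      have : (D.e : ℤ) * -(D.κ : ℤ) + ((D.e * D.κ : ℕ) : ℤ) = 0 := by
        push_cast
        ring
      rw [this]
      rfl
    calc η * ei L D.b = 1 * (η * ei L D.b) * (P * P⁻¹) := by
          rw [mul_inv_cancel₀ hP0, one_mul, mul_one]
      _ = (HahnSeries.single ((D.e : ℤ) * -(D.κ : ℤ)) (1 : L) *
        HahnSeries.single ((D.e * D.κ : ℕ) : ℤ) (1 : L)) * (η * ei L D.b) * (P * P⁻¹) := by rw [h1]
      _ = _ := by ring

end Pool.Agent.H82.DV
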