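import Pool.Agent.H82.DV.Co

/-!
# THEOREM DV: from `L[t]` to `F[X]^d`

`f = ∑_j C (ω j) * (x j).map (algebraMap)`, `ei f = ∑ C (ω j) * cm (algebraMap) (ei (x j))`, then `pc_sum`, `pc_mul`. `form_ne`: coefficients and independence of `ω`.
-/

set_option autoImplicit false

open Polynomial

namespace Pool.Agent.H82.DV

variable {F L : Type} [Field F] [Field L] [Algebra F L] {d : ℕ} (D : Data F L d)

private theorem ei_C' (a : L) : ei L (C a) = HahnSeries.C a := by
  unfold ei
  rw [coe_eval₂RingHom, eval₂_C]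

theorem form_val (η : LaurentSeries L) (Y : Matrix (Fin d) (Fin d) (LaurentSeries F))
    (x : Fin d → F[X]) (i : Fin d) :
    ∑ j, ((Y.map (psi F D.e)) * D.G0 η) i j * ei F (x j) =
      ∑ k, psi F D.e (Y i k) *
        pc D.ω k (η * ei L (∑ j, C (D.ω j) * (x j).map (algebraMap F L))) := by
  have h1 : ∀ k : Fin d, pc D.ω k (η * ei L (∑ j, C (D.ω j) * (x j).map (algebraMap F L))) =
      ∑ j, pc D.ω k (η * HahnSeries.C (D.ω j)) * ei F (x j) := by
    intro k
    rw [map_sum, Finset.mul_sum, pc_sum]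
    refine Finset.sum_congr rfl fun j _ => ?_
    rw [map_mul, ei_C', ← cm_ei, ← mul_assoc, mul_comm, pc_mul, mul_comm]
  simp_rw [h1]
  have h2 : ∀ j : Fin d, ((Y.map (psi F D.e)) * D.G0 η) i j =
      ∑ k, psi F D.e (Y i k) * pc D.ω k (η * HahnSeries.C (D.ω j)) := by
    intro j
    rw [Matrix.mul_apply]
    rfl
  simp_rw [h2, Finset.sum_mul, Finset.mul_sum]
  rw [Finset.sum_comm]
  refine Finset.sum_congr rfl fun k _ => Finset.sum_congr rfl fun j _ => ?_
  ring

theorem form_ne (x : Fin d → F[X]) (hx : x ≠ 0) :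
    ∑ j, C (D.ω j) * (x j).map (algebraMap F L) ≠ 0 := by
  intro h
  apply hx
  funext j
  ext n
  have h1 : ∑ j, (x j).coeff n • D.ω j = 0 := by
    have h2 := congrArg (fun p : L[X] => p.coeff n) h
    simp only [finsetSum_coeff, coeff_C_mul, coeff_map, coeff_zero] at h2
    rw [← h2]
    refine Finset.sum_congr rfl fun j _ => ?_
    rw [Algebra.smul_def, mul_comm]
  have h3 := Fintype.linearIndependent_iff.1 D.ω.linearIndependent (fun j => (x j).coeff n) h1 j
  rw [Pi.zero_apply, coeff_zero]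
  exact h3

end Pool.Agent.H82.DV
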