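import Pool.Agent.H82.DV.Ma
import Pool.Agent.H82.DV.Fv

/-!
# THEOREM DV: the product is bounded below

By `form_val` the `i`-th form at `x` is `v_i` of `main` with `f = ∑ C (ω j) * (x j).map` (`≠ 0`, `form_ne`). Choose `c` with `B (-c) (Z i j)` for all `i, j`. By `main` all `v_i ≠ 0` (if `v_i = 0` take `n_i` huge, the other `n_j` anything allowed, `B_exists`) and with `n_i = v_i.order / e` (floor) `∑ n_i ≤ d (κ d + c)`, so `∑ order v_i ≤ e (d (κ d + c) + d)`; the order of a product of nonzero elements is the sum.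
-/

set_option autoImplicit false

open Polynomial

namespace Pool.Agent.H82.DV

variable {F L : Type} [Field F] [Field L] [Algebra F L] {d : ℕ} (D : Data F L d)

private theorem B_of_le_order {R : Type} [Field R] {x : LaurentSeries R} {n : ℤ} (h : n ≤ x.order) :
    B n x := fun _ hj => HahnSeries.coeff_eq_zero_of_lt_order (lt_of_lt_of_le hj h)

private theorem B_c {ι : Type} [Fintype ι] {R : Type} [Field R] (Z : ι → LaurentSeries R) :
    ∃ c : ℤ, ∀ i, B (-c) (Z i) := by
  classical
  refine ⟨∑ i, |(Z i).order|, fun i => B_of_le_order ?_⟩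
  have h1 : |(Z i).order| ≤ ∑ i, |(Z i).order| :=
    Finset.single_le_sum (f := fun i => |(Z i).order|) (fun j _ => abs_nonneg _) (Finset.mem_univ i)
  have h2 := neg_abs_le (Z i).order
  linarith

private theorem order_prod' {ι : Type} {R : Type} [Field R] (s : Finset ι)
    (v : ι → LaurentSeries R) (h : ∀ i ∈ s, v i ≠ 0) :
    (∏ i ∈ s, v i).order = ∑ i ∈ s, (v i).order := by
  classical
  induction s using Finset.induction_on with
  | empty => simp
  | insert a s ha ih =>
    have h1 : v a ≠ 0 := h a (Finset.mem_insert_self a s)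
    have h2 : ∀ i ∈ s, v i ≠ 0 := fun i hi => h i (Finset.mem_insert_of_mem hi)
    have h3 : ∏ i ∈ s, v i ≠ 0 := Finset.prod_ne_zero_iff.2 h2
    rw [Finset.prod_insert ha, Finset.sum_insert ha, HahnSeries.order_mul h1 h3, ih h2]

/-- the uniform form -/
theorem bdd_unif {α η : LaurentSeries L} (hα : B (-(D.κ : ℤ)) α) (hη : B 0 η)
    (hη0 : η.coeff 0 = 1) (h : η * ei L D.b = psi L D.e α * cm (D.tw 1) η)
    (Y Z : Matrix (Fin d) (Fin d) (LaurentSeries F)) (hZY : Z * Y = 1) (c : ℤ)
    (hZ : ∀ i j, B (-c) (Z i j)) (x : Fin d → F[X]) (hx : x ≠ 0) :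
    ∏ i, ∑ j, ((Y.map (psi F D.e)) * D.G0 η) i j * ei F (x j) ≠ 0 ∧
      (∏ i, ∑ j, ((Y.map (psi F D.e)) * D.G0 η) i j * ei F (x j)).order ≤
        (D.e : ℤ) * (d * (D.κ * d + c) + d) := by
  classical
  have he : (0 : ℤ) < D.e := by exact_mod_cast Nat.pos_of_ne_zero (NeZero.ne D.e)
  set f : L[X] := ∑ j, C (D.ω j) * (x j).map (algebraMap F L) with hf_def
  have hf : f ≠ 0 := form_ne D x hx
  set v : Fin d → LaurentSeries F := fun i => ∑ k, psi F D.e (Y i k) * pc D.ω k (η * ei L f) with hv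
  have hprod : (∏ i, ∑ j, ((Y.map (psi F D.e)) * D.G0 η) i j * ei F (x j)) = ∏ i, v i :=
    Finset.prod_congr rfl fun i _ => form_val D η Y x i
  have hmain : ∀ n : Fin d → ℤ, (∀ i, B (D.e * n i) (v i)) → ∑ i, n i ≤ d * (D.κ * d + c) :=
    fun n hn => main D hα hη hη0 h Y Z hZY c hZ f hf n hn
  have hne : ∀ i, v i ≠ 0 := by
    intro i₀ h0
    set n : Fin d → ℤ := fun i => if i = i₀ then
      |d * (D.κ * d + c)| + 1 + ∑ j, |(v j).order| else -|(v i).order| with hn_def
    have h1 : ∀ i, B (D.e * n i) (v i) := by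
      intro i
      by_cases hi : i = i₀
      · rw [hi, h0]
        exact fun _ _ => HahnSeries.coeff_zero
      · refine B_of_le_order ?_
        have h2 : n i = -|(v i).order| := if_neg hi
        rw [h2]
        have h3 := neg_abs_le (v i).order
        have h4 := abs_nonneg (v i).order
        nlinarith
    have h5 := hmain n h1
    have h6 : ∑ i, n i ≥ |d * (D.κ * d + c)| + 1 := by
      have h7 : ∑ i, n i = n i₀ + ∑ i ∈ Finset.univ.erase i₀, n i :=
        (Finset.add_sum_erase _ _ (Finset.mem_univ i₀)).symm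
      have h8 : ∑ i ∈ Finset.univ.erase i₀, n i = ∑ i ∈ Finset.univ.erase i₀, -|(v i).order| :=
        Finset.sum_congr rfl fun i hi => if_neg (Finset.ne_of_mem_erase hi)
      have h9 : ∑ j, |(v j).order| =
          |(v i₀).order| + ∑ i ∈ Finset.univ.erase i₀, |(v i).order| :=
        (Finset.add_sum_erase _ _ (Finset.mem_univ i₀)).symm
      have h10 : n i₀ = |d * (D.κ * d + c)| + 1 + ∑ j, |(v j).order| := if_pos rfl
      rw [h7, h8, h10, h9, Finset.sum_neg_distrib]
      have := abs_nonneg (v i₀).order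
      linarith
    have h11 := le_abs_self ((d : ℤ) * (D.κ * d + c))
    linarith
  rw [hprod]
  refine ⟨Finset.prod_ne_zero_iff.2 fun i _ => hne i, ?_⟩
  rw [order_prod' Finset.univ v fun i _ => hne i]
  have h12 := hmain (fun i => (v i).order / D.e) fun i => B_of_le_order (by
    have := Int.mul_ediv_self_le (x := (v i).order) he.ne'
    linarith)
  have h13 : ∀ i, (v i).order ≤ D.e * ((v i).order / D.e) + D.e := fun i => by
    have := Int.lt_mul_ediv_self_add (x := (v i).order) he
    linarith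
  calc ∑ i, (v i).order ≤ ∑ i, (D.e * ((v i).order / D.e) + D.e) := Finset.sum_le_sum fun i _ => h13 i
    _ = D.e * (∑ i, (v i).order / D.e + d) := by
        rw [Finset.sum_add_distrib, ← Finset.mul_sum]
        simp
        ring
    _ ≤ D.e * (d * (D.κ * d + c) + d) := by
        refine mul_le_mul_of_nonneg_left ?_ he.le
        linarith

theorem bdd {α η : LaurentSeries L} (hα : B (-(D.κ : ℤ)) α) (hη : B 0 η)
    (hη0 : η.coeff 0 = 1) (h : η * ei L D.b = psi L D.e α * cm (D.tw 1) η)
    (Y Z : Matrix (Fin d) (Fin d) (LaurentSeries F)) (hZY : Z * Y = 1) :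
    Bdd ((Y.map (psi F D.e)) * D.G0 η) := by
  obtain ⟨c, hc⟩ := B_c (fun p : Fin d × Fin d => Z p.1 p.2)
  exact ⟨D.e * (d * (D.κ * d + c) + d), fun x hx =>
    bdd_unif D hα hη hη0 h Y Z hZY c (fun i j => hc (i, j)) x hx⟩

end Pool.Agent.H82.DV
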