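import Pool.Agent.H82.DV.Defs

/-!
# THEOREM DV: orders of Laurent series, the maps `psi`, `ei`, `cm`
-/

set_option autoImplicit false

open Polynomial

namespace Pool.Agent.H82.DV

variable {R S : Type} [Field R] [Field S]

theorem B_zero (n : ℤ) : B n (0 : LaurentSeries R) := fun _ _ => HahnSeries.coeff_zero

theorem B_add {n : ℤ} {x y : LaurentSeries R} (hx : B n x) (hy : B n y) : B n (x + y) := by
  intro j hj
  rw [HahnSeries.coeff_add, hx j hj, hy j hj, add_zero]

theorem B_sum {ι : Type} (s : Finset ι) (f : ι → LaurentSeries R) (n : ℤ)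
    (h : ∀ i ∈ s, B n (f i)) : B n (∑ i ∈ s, f i) :=
  Finset.sum_induction f (B n) (fun _ _ => B_add) (B_zero n) h

theorem B_mono {m n : ℤ} (h : m ≤ n) {x : LaurentSeries R} (hx : B n x) : B m x :=
  fun j hj => hx j (lt_of_lt_of_le hj h)

theorem B_mul {m n : ℤ} {x y : LaurentSeries R} (hx : B m x) (hy : B n y) :
    B (m + n) (x * y) := by
  intro j hj
  rw [HahnSeries.coeff_mul]
  refine Finset.sum_eq_zero fun p hp => ?_
  obtain ⟨-, -, h1⟩ := Finset.mem_antidiagonal.1 hp
  rcases lt_or_ge p.1 m with h2 | h2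
  · rw [hx _ h2, zero_mul]
  · rw [hy p.2 (by omega), mul_zero]

theorem B_mul_coeff {m n : ℤ} {x y : LaurentSeries R} (hx : B m x) (hy : B n y) :
    (x * y).coeff (m + n) = x.coeff m * y.coeff n := by
  rw [HahnSeries.coeff_mul]
  refine Finset.sum_eq_single (m, n) (fun p hp hne => ?_) (fun hp => ?_)
  · obtain ⟨-, -, h1⟩ := Finset.mem_antidiagonal.1 hp
    rcases lt_trichotomy p.1 m with h2 | h2 | h2
    · rw [hx _ h2, zero_mul]
    · exact absurd (Prod.ext h2 (by omega)) hne
    · rw [hy p.2 (by omega), mul_zero]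
  · by_contra hc
    apply hp
    rw [Finset.mem_antidiagonal]
    refine ⟨?_, ?_, rfl⟩
    · exact left_ne_zero_of_mul hc
    · exact right_ne_zero_of_mul hc

theorem B_one : B 0 (1 : LaurentSeries R) := by
  intro j hj
  rw [HahnSeries.coeff_one, if_neg hj.ne]

theorem B_single (n : ℤ) (a : R) : B n (HahnSeries.single n a : LaurentSeries R) :=
  fun _ hj => HahnSeries.coeff_single_of_ne hj.ne

theorem B_C (a : R) : B 0 (HahnSeries.C a : LaurentSeries R) := B_single 0 a

theorem B_prod {ι : Type} (s : Finset ι) (f : ι → LaurentSeries R) (n : ι → ℤ)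
    (h : ∀ i ∈ s, B (n i) (f i)) : B (∑ i ∈ s, n i) (∏ i ∈ s, f i) := by
  classical
  induction s using Finset.induction_on with
  | empty =>
    rw [Finset.sum_empty, Finset.prod_empty]
    exact B_one
  | insert a s ha ih =>
    rw [Finset.sum_insert ha, Finset.prod_insert ha]
    exact B_mul (h a (Finset.mem_insert_self a s)) (ih fun i hi => h i (Finset.mem_insert_of_mem hi))

theorem B_exists (x : LaurentSeries R) : ∃ n, B n x :=
  ⟨x.order, fun _ hj => HahnSeries.coeff_eq_zero_of_lt_order hj⟩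

theorem B_order {x : LaurentSeries R} (hx : x ≠ 0) (n : ℤ) : B n x ↔ n ≤ x.order := by
  constructor
  · intro h
    by_contra hc
    exact hx (HahnSeries.coeff_order_eq_zero.1 (h _ (not_le.1 hc)))
  · intro h j hj
    exact HahnSeries.coeff_eq_zero_of_lt_order (lt_of_lt_of_le hj h)

theorem psi_coeff (e : ℕ) [NeZero e] (x : LaurentSeries R) (n : ℤ) :
    (psi R e x).coeff (e * n) = x.coeff n :=
  HahnSeries.embDomain_coeff (f := ⟨⟨mulBy e, mulBy_inj e⟩, mulBy_le e _ _⟩) (x := x) (a := n)

theorem psi_coeff_ne (e : ℕ) [NeZero e] (x : LaurentSeries R) (n : ℤ) (h : ¬ (e : ℤ) ∣ n) :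
    (psi R e x).coeff n = 0 := by
  refine HahnSeries.embDomain_of_notMem_range (f := ⟨⟨mulBy e, mulBy_inj e⟩, mulBy_le e _ _⟩) (x := x) ?_
  rintro ⟨k, hk⟩
  exact h ⟨k, hk.symm⟩

theorem B_psi (e : ℕ) [NeZero e] {n : ℤ} {x : LaurentSeries R} (hx : B n x) :
    B (e * n) (psi R e x) := by
  intro j hj
  by_cases h : (e : ℤ) ∣ j
  · obtain ⟨k, rfl⟩ := h
    rw [psi_coeff]
    have he : (0 : ℤ) < e := by exact_mod_cast Nat.pos_of_ne_zero (NeZero.ne e)
    exact hx k (lt_of_mul_lt_mul_left hj he.le)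
  · exact psi_coeff_ne e x j h

theorem B_cm (g : R →+* S) {n : ℤ} {x : LaurentSeries R} (hx : B n x) : B n (cm g x) := by
  intro j hj
  rw [cm_coeff, hx j hj, map_zero]

private theorem ei_sum (p : R[X]) :
    ei R p = ∑ i ∈ Finset.range (p.natDegree + 1), HahnSeries.single (-(i : ℤ)) (p.coeff i) := by
  unfold ei
  rw [coe_eval₂RingHom, eval₂_eq_sum_range]
  refine Finset.sum_congr rfl fun i _ => ?_
  rw [HahnSeries.single_pow, one_pow, HahnSeries.C_apply, HahnSeries.single_mul_single, mul_one, zero_add,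
    nsmul_eq_mul, mul_neg, mul_one]

theorem ei_coeff (p : R[X]) (n : ℕ) : (ei R p).coeff (-(n : ℤ)) = p.coeff n := by
  rw [ei_sum, HahnSeries.coeff_sum]
  rw [Finset.sum_eq_single n]
  · exact HahnSeries.coeff_single_same _ _
  · intro i _ hi
    exact HahnSeries.coeff_single_of_ne (by
      intro h
      apply hi
      omega)
  · intro h
    rw [HahnSeries.coeff_single_same]
    apply coeff_eq_zero_of_natDegree_lt
    rw [Finset.mem_range] at h
    omega

theorem ei_coeff_pos (p : R[X]) (n : ℤ) (h : 0 < n) : (ei R p).coeff n = 0 := by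
  rw [ei_sum, HahnSeries.coeff_sum]
  refine Finset.sum_eq_zero fun i _ => ?_
  exact HahnSeries.coeff_single_of_ne (by omega)

theorem B_ei {p : R[X]} {N : ℕ} (h : p.natDegree ≤ N) : B (-(N : ℤ)) (ei R p) := by
  intro j hj
  obtain ⟨n, rfl⟩ : ∃ n : ℕ, j = -(n : ℤ) := ⟨(-j).toNat, by omega⟩
  rw [ei_coeff]
  apply coeff_eq_zero_of_natDegree_lt
  omega

theorem ei_inj : Function.Injective (ei R) := by
  intro p q h
  ext n
  rw [← ei_coeff, ← ei_coeff, h]

theorem ei_low {p : R[X]} (hp : p ≠ 0) : ei R p ≠ 0 ∧ (ei R p).order ≤ 0 := by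
  constructor
  · intro h
    apply hp
    apply ei_inj
    rw [h, map_zero]
  · have h1 : (ei R p).coeff (-(p.natDegree : ℤ)) ≠ 0 := by
      rw [ei_coeff]
      exact leadingCoeff_ne_zero.2 hp
    have h2 := HahnSeries.order_le_of_coeff_ne_zero h1
    omega

theorem psi_single (e : ℕ) [NeZero e] (n : ℤ) (a : R) :
    psi R e (HahnSeries.single n a) = HahnSeries.single (e * n) a :=
  HahnSeries.embDomain_single (f := ⟨⟨mulBy e, mulBy_inj e⟩, mulBy_le e _ _⟩)

theorem psi_C (e : ℕ) [NeZero e] (a : R) :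
    psi R e (HahnSeries.C a) = HahnSeries.C a := by
  rw [HahnSeries.C_apply, psi_single, mul_zero]

private theorem ei_C (a : R) : ei R (C a) = HahnSeries.C a := by
  unfold ei
  rw [coe_eval₂RingHom, eval₂_C]

private theorem ei_X : ei R X = HahnSeries.single (-1) 1 := by
  unfold ei
  rw [coe_eval₂RingHom, eval₂_X]

theorem psi_ei (e : ℕ) [NeZero e] (p : R[X]) :
    psi R e (ei R p) = ei R (expand R e p) := by
  have h : (psi R e).comp (ei R) = (ei R).comp (expand R e : R[X] →+* R[X]) := by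
    apply Polynomial.ringHom_ext
    · intro a
      rw [RingHom.comp_apply, RingHom.comp_apply, ei_C, psi_C]
      show _ = ei R (expand R e (C a))
      rw [expand_C, ei_C]
    · rw [RingHom.comp_apply, RingHom.comp_apply, ei_X, psi_single]
      show _ = ei R (expand R e X)
      rw [expand_X, map_pow, ei_X, HahnSeries.single_pow, one_pow, nsmul_eq_mul]
  exact congrArg (fun f : R[X] →+* LaurentSeries R => f p) h

theorem psi_cm (e : ℕ) [NeZero e] (g : R →+* S) (x : LaurentSeries R) :
    psi S e (cm g x) = cm g (psi R e x) := by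
  ext n
  rw [cm_coeff]
  by_cases h : (e : ℤ) ∣ n
  · obtain ⟨k, rfl⟩ := h
    rw [psi_coeff, psi_coeff, cm_coeff]
  · rw [psi_coeff_ne e _ n h, psi_coeff_ne e _ n h, map_zero]

theorem cm_single (g : R →+* S) (n : ℤ) (a : R) :
    cm g (HahnSeries.single n a : LaurentSeries R) = HahnSeries.single n (g a) := by
  ext k
  rw [cm_coeff]
  by_cases h : k = n
  · rw [h, HahnSeries.coeff_single_same, HahnSeries.coeff_single_same]
  · rw [HahnSeries.coeff_single_of_ne h, HahnSeries.coeff_single_of_ne h, map_zero]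

theorem cm_C (g : R →+* S) (a : R) :
    cm g (HahnSeries.C a : LaurentSeries R) = HahnSeries.C (g a) := cm_single g 0 a

theorem cm_ei (g : R →+* S) (p : R[X]) : cm g (ei R p) = ei S (p.map g) := by
  have h : (cm g).comp (ei R) = (ei S).comp (mapRingHom g) := by
    apply Polynomial.ringHom_ext
    · intro a
      rw [RingHom.comp_apply, RingHom.comp_apply, ei_C, cm_C, coe_mapRingHom, map_C, ei_C]
    · rw [RingHom.comp_apply, RingHom.comp_apply, ei_X, cm_single, coe_mapRingHom, map_X, ei_X, map_one]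
  exact congrArg (fun f : R[X] →+* LaurentSeries S => f p) h

end Pool.Agent.H82.DV
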