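import Pool.Agent.H82.DV.Bs

/-!
# THEOREM DV: coordinates
-/

set_option autoImplicit false

open Polynomial

namespace Pool.Agent.H82.DV

variable {F L : Type} [Field F] [Field L] [Algebra F L] {d : ℕ}
  (ω : Module.Basis (Fin d) F L)

theorem pc_add (k : Fin d) (x y : LaurentSeries L) :
    pc ω k (x + y) = pc ω k x + pc ω k y := by
  ext n
  rw [pc_coeff, HahnSeries.coeff_add, HahnSeries.coeff_add, pc_coeff, pc_coeff, map_add,
    Finsupp.add_apply]

private noncomputable def pcHom (k : Fin d) : LaurentSeries L →+ LaurentSeries F where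
  toFun := pc ω k
  map_zero' := by
    ext n
    rw [pc_coeff, HahnSeries.coeff_zero, map_zero, HahnSeries.coeff_zero, Finsupp.zero_apply]
  map_add' := pc_add ω k

theorem pc_sum (k : Fin d) {ι : Type} (s : Finset ι) (f : ι → LaurentSeries L) :
    pc ω k (∑ i ∈ s, f i) = ∑ i ∈ s, pc ω k (f i) :=
  map_sum (pcHom ω k) f s

theorem pc_mul (k : Fin d) (y : LaurentSeries F) (x : LaurentSeries L) :
    pc ω k (cm (algebraMap F L) y * x) = y * pc ω k x := by
  ext n
  have h1 : (pc ω k x).support ⊆ x.support := by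
    intro i hi h0
    apply hi
    rw [pc_coeff, h0, map_zero, Finsupp.zero_apply]
  have h2 : (cm (algebraMap F L) y).support ⊆ y.support := by
    intro i hi h0
    apply hi
    rw [cm_coeff, h0, map_zero]
  rw [pc_coeff, HahnSeries.coeff_mul_left' y.isPWO_support h2,
    HahnSeries.coeff_mul_right' x.isPWO_support h1, map_sum, Finsupp.finsetSum_apply]
  refine Finset.sum_congr rfl fun ij _ => ?_
  rw [cm_coeff, pc_coeff, ← Algebra.smul_def, map_smul, Finsupp.smul_apply, smul_eq_mul]

theorem pc_expand (x : LaurentSeries L) :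
    x = ∑ k, cm (algebraMap F L) (pc ω k x) * HahnSeries.C (ω k) := by
  ext n
  rw [HahnSeries.coeff_sum]
  have h : ∀ k : Fin d, (cm (algebraMap F L) (pc ω k x) * HahnSeries.C (ω k)).coeff n =
      ω.repr (x.coeff n) k • ω k := by
    intro k
    rw [mul_comm, HahnSeries.C_mul_eq_smul, HahnSeries.coeff_smul, cm_coeff, pc_coeff,
      smul_eq_mul, mul_comm, ← Algebra.smul_def]
  rw [Finset.sum_congr rfl fun k _ => h k, ω.sum_repr]

theorem pc_B {n : ℤ} {x : LaurentSeries L} (hx : B n x) (k : Fin d) : B n (pc ω k x) := by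
  intro j hj
  rw [pc_coeff, hx j hj, map_zero, Finsupp.zero_apply]

theorem B_of_pc {n : ℤ} {x : LaurentSeries L} (h : ∀ k, B n (pc ω k x)) : B n x := by
  intro j hj
  have h1 : ω.repr (x.coeff j) = 0 := by
    ext k
    exact h k j hj
  exact ω.repr.map_eq_zero_iff.1 h1

theorem pc_psi (e : ℕ) [NeZero e] (k : Fin d) (x : LaurentSeries L) :
    pc ω k (psi L e x) = psi F e (pc ω k x) := by
  ext n
  rw [pc_coeff]
  by_cases h : (e : ℤ) ∣ n
  · obtain ⟨m, rfl⟩ := h
    rw [psi_coeff, psi_coeff, pc_coeff]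
  · rw [psi_coeff_ne e _ n h, psi_coeff_ne e _ n h, map_zero, Finsupp.zero_apply]

theorem pc_C (k j : Fin d) :
    pc ω k (HahnSeries.C (ω j)) = if k = j then 1 else 0 := by
  ext n
  rw [pc_coeff, HahnSeries.C_apply]
  by_cases hn : n = 0
  · subst hn
    rw [HahnSeries.coeff_single_same, ω.repr_self, Finsupp.single_apply]
    by_cases hk : k = j
    · rw [if_pos hk.symm, if_pos hk, HahnSeries.coeff_one, if_pos rfl]
    · rw [if_neg (fun h => hk h.symm), if_neg hk, HahnSeries.coeff_zero]
  · rw [HahnSeries.coeff_single_of_ne hn, map_zero, Finsupp.zero_apply]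
    split_ifs
    · rw [HahnSeries.coeff_one, if_neg hn]
    · rw [HahnSeries.coeff_zero]

end Pool.Agent.H82.DV
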