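import Pool.Agent.H82.DV.Ac

/-!
# THEOREM DV: the dimension count

`V = Fin d → Fin (N + 1) → L`, a vector space over `L` of dimension `d (N+1)`; `x_i = ∑_n C (v i n) X^n` (degree `≤ N`); `T j v = RR α x (ζ j) = ∑_i ei (x_i) * ai α i * cm (tw i) (ζ j)` is `L`-linear in `v`, of order `≥ -(N + κ d + c)` (`B_ei`, `ai α i` of order `≥ -κ i ≥ -κ d`, `B_cm`). Conditions (`abs_count` over `L`, `P = Fin d`): `∑_j (1 - n_j + N + κ d + c) = d (N + 1) + d (κ d + c) - ∑ n_j < d (N + 1)`; `N` large makes all counts nonnegative.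
-/

set_option autoImplicit false

open Polynomial

namespace Pool.Agent.H82.DV

variable {F L : Type} [Field F] [Field L] [Algebra F L] {d : ℕ} (D : Data F L d)

/-- the polynomial with the coefficients `v` -/
private noncomputable def ctx {N : ℕ} (v : Fin (N + 1) → L) : L[X] :=
  ∑ k : Fin (N + 1), C (v k) * X ^ (k : ℕ)

private theorem ctx_coeff {N : ℕ} (v : Fin (N + 1) → L) (k : Fin (N + 1)) :
    (ctx v).coeff (k : ℕ) = v k := by
  unfold ctx
  rw [finsetSum_coeff, Finset.sum_eq_single k]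
  · rw [coeff_C_mul, coeff_X_pow, if_pos rfl, mul_one]
  · intro b _ hb
    rw [coeff_C_mul, coeff_X_pow, if_neg, mul_zero]
    intro h
    exact hb (Fin.ext h.symm)
  · intro h
    exact absurd (Finset.mem_univ _) h

private theorem ctx_deg {N : ℕ} (v : Fin (N + 1) → L) : (ctx v).natDegree ≤ N := by
  unfold ctx
  refine natDegree_sum_le_of_forall_le _ _ fun k _ => ?_
  exact (natDegree_C_mul_X_pow_le _ _).trans (Nat.lt_succ_iff.1 k.2)

private theorem ctx_add {N : ℕ} (v w : Fin (N + 1) → L) : ctx (v + w) = ctx v + ctx w := by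
  unfold ctx
  rw [← Finset.sum_add_distrib]
  refine Finset.sum_congr rfl fun k _ => ?_
  rw [Pi.add_apply, C_add, add_mul]

private theorem ctx_smul {N : ℕ} (r : L) (v : Fin (N + 1) → L) :
    ctx (r • v) = C r * ctx v := by
  unfold ctx
  rw [Finset.mul_sum]
  refine Finset.sum_congr rfl fun k _ => ?_
  rw [Pi.smul_apply, smul_eq_mul, C_mul, mul_assoc]

private theorem ei_C' (r : L) : ei L (C r) = HahnSeries.C r := by
  unfold ei
  rw [coe_eval₂RingHom, eval₂_C]

private theorem ai_B {α : LaurentSeries L} (hα : B (-(D.κ : ℤ)) α) (i : ℕ) :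
    B (-(D.κ * i : ℤ)) (D.ai α i) := by
  unfold Data.ai
  have h1 := B_prod (Finset.range i) (fun l => cm (D.tw l) α) (fun _ => -(D.κ : ℤ))
    (fun l _ => B_cm (D.tw l) hα)
  rw [Finset.sum_const, Finset.card_range, nsmul_eq_mul] at h1
  rwa [show ((i : ℤ) * -(D.κ : ℤ)) = -(D.κ * i : ℤ) by ring] at h1

theorem count {α : LaurentSeries L} (hα : B (-(D.κ : ℤ)) α)
    (ζ : Fin d → LaurentSeries L) (c : ℤ) (hζ : ∀ j, B (-c) (ζ j))
    (n : Fin d → ℤ) (hn : (d : ℤ) * (D.κ * d + c) < ∑ i, n i) :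
    ∃ x : Fin d → L[X], x ≠ 0 ∧ ∀ j, B (1 - n j) (D.RR α x (ζ j)) := by
  classical
  let N : ℕ := ∑ j, (n j).natAbs + c.natAbs
  let T : Fin d → (Fin d → Fin (N + 1) → L) →ₗ[L] LaurentSeries L := fun j =>
    { toFun := fun v => D.RR α (fun i => ctx (v i)) (ζ j)
      map_add' := fun v w => by
        unfold Data.RR
        rw [← Finset.sum_add_distrib]
        refine Finset.sum_congr rfl fun i _ => ?_
        have h1 : ei L (ctx ((v + w) i)) = ei L (ctx (v i)) + ei L (ctx (w i)) := by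
          rw [Pi.add_apply, ctx_add, map_add]
        show ei L (ctx ((v + w) i)) * D.ai α i * cm (D.tw i) (ζ j) =
          ei L (ctx (v i)) * D.ai α i * cm (D.tw i) (ζ j) +
            ei L (ctx (w i)) * D.ai α i * cm (D.tw i) (ζ j)
        rw [h1, add_mul, add_mul]
      map_smul' := fun r v => by
        unfold Data.RR
        rw [RingHom.id_apply, ← HahnSeries.C_mul_eq_smul, Finset.mul_sum]
        refine Finset.sum_congr rfl fun i _ => ?_
        have h1 : ei L (ctx ((r • v) i)) = HahnSeries.C r * ei L (ctx (v i)) := by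
          rw [Pi.smul_apply, ctx_smul, map_mul, ei_C']
        show ei L (ctx ((r • v) i)) * D.ai α i * cm (D.tw i) (ζ j) =
          HahnSeries.C r * (ei L (ctx (v i)) * D.ai α i * cm (D.tw i) (ζ j))
        rw [h1, mul_assoc, mul_assoc, mul_assoc] }
  have hT : ∀ j v, B (-((N : ℤ) + D.κ * d + c)) (T j v) := by
    intro j v
    show B (-((N : ℤ) + D.κ * d + c)) (D.RR α (fun i => ctx (v i)) (ζ j))
    unfold Data.RR
    refine B_sum _ _ _ fun i _ => ?_
    have h1 := B_mul (B_mul (B_ei (ctx_deg (v i))) (ai_B D hα (i : ℕ)))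
      (B_cm (D.tw (i : ℕ)) (hζ j))
    refine B_mono ?_ h1
    have h2 : ((i : ℕ) : ℤ) ≤ d := by exact_mod_cast i.2.le
    have h3 : (D.κ : ℤ) * (i : ℕ) ≤ D.κ * d :=
      mul_le_mul_of_nonneg_left h2 (Int.natCast_nonneg _)
    linarith
  have hN : ∀ j, n j ≤ (N : ℤ) - c.natAbs := by
    intro j
    have h1 : (n j).natAbs ≤ ∑ k, (n k).natAbs :=
      Finset.single_le_sum (f := fun k => (n k).natAbs) (fun _ _ => Nat.zero_le _)
        (Finset.mem_univ j)
    have h2 : N = ∑ k, (n k).natAbs + c.natAbs := rfl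
    omega
  have hc : ∀ j, 0 ≤ (1 - n j) + ((N : ℤ) + D.κ * d + c) := by
    intro j
    have h1 := hN j
    have h2 : (0 : ℤ) ≤ (D.κ : ℤ) * d := by positivity
    have h3 : -(c.natAbs : ℤ) ≤ c := by omega
    linarith
  have hM : ∑ j, ((1 - n j) + ((N : ℤ) + D.κ * d + c)) <
      Module.finrank L (Fin d → Fin (N + 1) → L) := by
    rw [Module.finrank_pi_fintype]
    simp only [Module.finrank_fintype_fun_eq_card, Fintype.card_fin, Finset.sum_const,
      Finset.card_univ, smul_eq_mul, Finset.sum_add_distrib, Finset.sum_sub_distrib,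
      nsmul_eq_mul, Nat.cast_mul, Nat.cast_add, Nat.cast_one, mul_one]
    have h1 : (d : ℤ) - ∑ i, n i + (d * N + d * (D.κ * d) + d * c) =
      d * (N + 1) + (d * (D.κ * d + c) - ∑ i, n i) := by ring
    linarith
  obtain ⟨v, hv, hB⟩ := abs_count T _ hT (fun j => 1 - n j) hc hM
  refine ⟨fun i => ctx (v i), ?_, hB⟩
  intro h0
  apply hv
  funext i k
  have h1 := congrArg (fun p : L[X] => p.coeff (k : ℕ)) (congrFun h0 i)
  simp only [ctx_coeff, Pi.zero_apply, coeff_zero] at h1
  rw [h1, Pi.zero_apply, Pi.zero_apply]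

end Pool.Agent.H82.DV
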