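import Mathlib

/-!
# THEOREM DV: a small Hensel lemma for power series

Either Mathlib's Hensel lemma (is `F⟦X⟧` known to be Henselian / `IsAdicComplete`?) or recursion: the coefficient of `P(γ)` at `w^n` is `γ_n + (a polynomial in γ_1, ..., γ_(n-1))`; e.g. by induction there are polynomials `g_n` with `P(g_n) ≡ u` modulo `w^(n+1)`, `g_(n+1) = g_n + c w^(n+1)`; limit `PowerSeries.mk fun n => (g n).coeff n`. (Uses `P(g + c w^(n+1)) ≡ P(g) + P'(0) c w^(n+1)` modulo `w^(n+2)` for `g ≡ 0` modulo `w`.)
-/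

set_option autoImplicit false

open Polynomial

namespace Pool.Agent.H82.DV

private theorem he_dvd {F : Type} [Field F] (R : F[X]) (g h : PowerSeries F) :
    g - h ∣ aeval g R - aeval h R := by
  rw [aeval_def, aeval_def, eval₂_eq_eval_map, eval₂_eq_eval_map]
  exact sub_dvd_eval_sub g h _

/-- the iteration -/
private noncomputable def heT {F : Type} [Field F] (R : F[X]) (u g : PowerSeries F) :
    PowerSeries F := u - 1 - aeval g R * g ^ 2

private theorem heT_sub {F : Type} [Field F] (R : F[X]) (u : PowerSeries F) {g h : PowerSeries F}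
    (hg : PowerSeries.X ∣ g) (hh : PowerSeries.X ∣ h) (n : ℕ)
    (hn : (PowerSeries.X : PowerSeries F) ^ n ∣ g - h) :
    (PowerSeries.X : PowerSeries F) ^ (n + 1) ∣ heT R u g - heT R u h := by
  obtain ⟨a, ha⟩ := he_dvd R g h
  obtain ⟨b, hb⟩ := hg
  obtain ⟨c, hc⟩ := hh
  obtain ⟨d, hd⟩ := hn
  refine ⟨- (d * (a * b * g + aeval h R * (b + c))), ?_⟩
  have h1 : heT R u g - heT R u h =
      - ((aeval g R - aeval h R) * g ^ 2 + aeval h R * ((g - h) * (g + h))) := by
    unfold heT
    ring
  have h2 : g + h = PowerSeries.X * (b + c) := by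
    rw [hb, hc]
    ring
  have h3 : g ^ 2 = PowerSeries.X * b * g := by
    rw [sq]
    nth_rw 1 [hb]
  rw [h1, ha, h2, h3, hd]
  ring

private theorem heT_X {F : Type} [Field F] (R : F[X]) (u g : PowerSeries F)
    (hu : PowerSeries.constantCoeff u = 1) (hg : PowerSeries.X ∣ g) :
    PowerSeries.X ∣ heT R u g := by
  unfold heT
  refine dvd_sub ?_ (Dvd.dvd.mul_left (Dvd.dvd.pow hg (by norm_num)) _)
  rw [PowerSeries.X_dvd_iff, map_sub, hu, map_one, sub_self]

/-- the approximations -/
private noncomputable def heG {F : Type} [Field F] (R : F[X]) (u : PowerSeries F) :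
    ℕ → PowerSeries F
  | 0 => 0
  | n + 1 => heT R u (heG R u n)

theorem hensel {F : Type} [Field F] (P : F[X]) (h0 : P.coeff 0 = 1) (h1 : P.coeff 1 = 1)
    (u : PowerSeries F) (hu : PowerSeries.constantCoeff u = 1) :
    ∃ γ : PowerSeries F, PowerSeries.constantCoeff γ = 0 ∧ aeval γ P = u := by
  obtain ⟨R, hR⟩ : ∃ R : F[X], P = (R * X + C 1) * X + C 1 := by
    refine ⟨divX (divX P), ?_⟩
    have e1 := divX_mul_X_add P
    have e2 := divX_mul_X_add (divX P)
    rw [coeff_divX, zero_add, h1] at e2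
    rw [h0] at e1
    rw [e2, e1]
  have hX : ∀ n, PowerSeries.X ∣ heG R u n := by
    intro n
    induction n with
    | zero => exact dvd_zero _
    | succ n ih => exact heT_X R u _ hu ih
  have hs : ∀ n, (PowerSeries.X : PowerSeries F) ^ (n + 1) ∣ heG R u (n + 1) - heG R u n := by
    intro n
    induction n with
    | zero =>
      rw [zero_add, pow_one]
      exact dvd_sub (hX 1) (hX 0)
    | succ n ih => exact heT_sub R u (hX _) (hX _) _ ih
  have hc : ∀ m n, m ≤ n → PowerSeries.coeff m (heG R u (n + 1)) =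
      PowerSeries.coeff m (heG R u (m + 1)) := by
    intro m n hmn
    induction n, hmn using Nat.le_induction with
    | base => rfl
    | succ n hmn ih =>
      have h2 := PowerSeries.X_pow_dvd_iff.1 (hs (n + 1)) m (by omega)
      rw [map_sub, sub_eq_zero] at h2
      rw [h2, ih]
  obtain ⟨γ, hγ⟩ : ∃ γ : PowerSeries F, γ = PowerSeries.mk fun n =>
      PowerSeries.coeff n (heG R u (n + 1)) := ⟨_, rfl⟩
  have hd : ∀ n, (PowerSeries.X : PowerSeries F) ^ n ∣ γ - heG R u n := by
    intro n
    rcases n with _ | n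
    · rw [pow_zero]
      exact one_dvd _
    · rw [PowerSeries.X_pow_dvd_iff]
      intro m hm
      rw [map_sub, hγ, PowerSeries.coeff_mk, hc m n (by omega), sub_self]
  have hγX : PowerSeries.X ∣ γ := by
    have h2 := hd 1
    rw [pow_one] at h2
    have h3 := dvd_add h2 (hX 1)
    rwa [sub_add_cancel] at h3
  have hfix : γ - heT R u γ = 0 := by
    ext m
    have h2 : (PowerSeries.X : PowerSeries F) ^ (m + 1) ∣ γ - heT R u γ := by
      have h3 := hd (m + 1)
      have h4 := heT_sub R u hγX (hX m) m (hd m)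
      have h5 := dvd_sub h3 h4
      have h6 : γ - heG R u (m + 1) - (heT R u γ - heT R u (heG R u m)) = γ - heT R u γ := by
        show γ - heT R u (heG R u m) - (heT R u γ - heT R u (heG R u m)) = γ - heT R u γ
        ring
      rwa [h6] at h5
    rw [PowerSeries.X_pow_dvd_iff.1 h2 m (Nat.lt_succ_self m), map_zero]
  refine ⟨γ, PowerSeries.X_dvd_iff.1 hγX, ?_⟩
  rw [hR, map_add, map_mul, map_add, map_mul, aeval_X, aeval_C, map_one]
  have h7 : γ = u - 1 - aeval γ R * γ ^ 2 := by
    have h8 := sub_eq_zero.1 hfix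
    unfold heT at h8
    exact h8
  linear_combination h7

end Pool.Agent.H82.DV
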