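import Pool.Agent.H82.DV.Defs

/-!
# THEOREM DV: no zero divisors

`Th x f = ∑_i x_i(t^e) bi_i τ^i(f)`. The order at `t = 0` (`natTrailingDegree`) of the `i`-th term (if `x_i ≠ 0`) is `e ord(x_i) + m i + ord f`, `e = d m`, `i < d`: these are pairwise different (different modulo `e`), so the least one wins: choose `i₀` minimizing it among `x_i ≠ 0` and look at that coefficient of the sum. Orders: `bi i` has trailing degree `m i` (`b = X^m b₁`, `b₁.coeff 0 ≠ 0`; `map` by the injective `tw l` preserves it), `expand` multiplies it by `e`, `natTrailingDegree_mul`.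
-/

set_option autoImplicit false

open Polynomial

namespace Pool.Agent.H82.DV

private theorem nz_split {L : Type} [Field L] {p : L[X]} (hp : p ≠ 0) :
    ∃ (n : ℕ) (q : L[X]), p = X ^ n * q ∧ q.coeff 0 ≠ 0 := by
  have h1 : (X : L[X]) ^ p.natTrailingDegree ∣ p := by
    rw [X_pow_dvd_iff]
    intro k hk
    exact coeff_eq_zero_of_lt_natTrailingDegree hk
  obtain ⟨q, hq⟩ := h1
  refine ⟨p.natTrailingDegree, q, hq, ?_⟩
  have h2 : p.coeff p.natTrailingDegree ≠ 0 := by
    have h3 := trailingCoeff_nonzero_iff_nonzero.2 hp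
    exact h3
  have h4 : p.coeff p.natTrailingDegree = q.coeff 0 := by
    conv_lhs => rw [hq]
    have h5 := coeff_X_pow_mul q p.natTrailingDegree 0
    rw [zero_add] at h5
    rw [← hq] at h5 ⊢
    exact h5
  rwa [h4] at h2

variable {F L : Type} [Field F] [Field L] [Algebra F L] {d : ℕ} (D : Data F L d)

private theorem nz_bi (i : ℕ) : ∃ q : L[X], D.bi i = X ^ (D.m * i) * q ∧ q.coeff 0 ≠ 0 := by
  refine ⟨∏ l ∈ Finset.range i, D.b₁.map (D.tw l), ?_, ?_⟩
  · unfold Data.bi Data.b
    rw [pow_mul]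
    have h1 : ∀ l ∈ Finset.range i, (X ^ D.m * D.b₁).map (D.tw l) =
        X ^ D.m * D.b₁.map (D.tw l) := by
      intro l _
      rw [Polynomial.map_mul, Polynomial.map_pow, map_X]
    rw [Finset.prod_congr rfl h1, Finset.prod_mul_distrib, Finset.prod_const, Finset.card_range]
  · rw [← constantCoeff_apply, map_prod]
    rw [Finset.prod_ne_zero_iff]
    intro l _
    rw [constantCoeff_apply, coeff_map]
    intro h
    exact D.hb₁ ((map_eq_zero _).1 h)

private theorem nz_term {x : L[X]} (hx : x ≠ 0) {f : L[X]} (c : ℕ) (g : L[X])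
    (hf : f = X ^ c * g) (hg : g.coeff 0 ≠ 0) (i : ℕ) :
    ∃ (n : ℕ) (q : L[X]), expand L D.e x * D.bi i * f.map (D.tw i) =
      X ^ (D.e * n + D.m * i + c) * q ∧ q.coeff 0 ≠ 0 := by
  obtain ⟨n, y, hy, hy0⟩ := nz_split hx
  obtain ⟨u, hu, hu0⟩ := nz_bi D i
  have he : 0 < D.e := Nat.pos_of_ne_zero (NeZero.ne D.e)
  refine ⟨n, expand L D.e y * u * g.map (D.tw i), ?_, ?_⟩
  · rw [hy, hu, hf, map_mul, map_pow, expand_X, Polynomial.map_mul, Polynomial.map_pow, map_X,
      ← pow_mul]
    ring
  · rw [mul_coeff_zero, mul_coeff_zero, coeff_expand he, if_pos (dvd_zero _), Nat.zero_div,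
      coeff_map]
    refine mul_ne_zero (mul_ne_zero hy0 hu0) ?_
    intro h
    exact hg ((map_eq_zero _).1 h)

theorem Th_ne_zero {x : Fin d → L[X]} (hx : x ≠ 0) {f : L[X]} (hf : f ≠ 0) :
    D.Th x f ≠ 0 := by
  classical
  obtain ⟨c, g, hfg, hg⟩ := nz_split hf
  have key : ∀ i : Fin d, ∃ (n : ℕ) (q : L[X]), x i ≠ 0 →
      (expand L D.e (x i) * D.bi i * f.map (D.tw i) = X ^ (D.e * n + D.m * i + c) * q ∧
        q.coeff 0 ≠ 0) := by
    intro i
    by_cases h : x i = 0
    · exact ⟨0, 0, fun h' => absurd h h'⟩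
    · obtain ⟨n, q, h1, h2⟩ := nz_term D h c g hfg hg i
      exact ⟨n, q, fun _ => ⟨h1, h2⟩⟩
  choose n q hnq using key
  set S : Finset (Fin d) := Finset.univ.filter (fun i => x i ≠ 0) with hS
  have hne : S.Nonempty := by
    obtain ⟨i, hi⟩ := Function.ne_iff.1 hx
    exact ⟨i, by rw [hS, Finset.mem_filter]; exact ⟨Finset.mem_univ _, hi⟩⟩
  obtain ⟨i0, hi0, hmin⟩ := Finset.exists_min_image S
    (fun i : Fin d => D.e * n i + D.m * i + c) hne
  have hx0 : x i0 ≠ 0 := (Finset.mem_filter.1 hi0).2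
  intro h0
  have h1 : (D.Th x f).coeff (D.e * n i0 + D.m * i0 + c) = (q i0).coeff 0 := by
    unfold Data.Th
    rw [finset_sum_coeff, Finset.sum_eq_single i0]
    · rw [(hnq i0 hx0).1, coeff_X_pow_mul', if_pos le_rfl, Nat.sub_self]
    · intro j _ hj
      by_cases hxj : x j = 0
      · rw [hxj, map_zero, zero_mul, zero_mul, coeff_zero]
      · have h2 := hmin j (by rw [hS, Finset.mem_filter]; exact ⟨Finset.mem_univ _, hxj⟩)
        rw [(hnq j hxj).1, coeff_X_pow_mul']
        rw [if_neg]
        intro h3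
        have h4 : D.e * n i0 + D.m * i0 + c = D.e * n j + D.m * j + c := le_antisymm h2 h3
        have h5 : d * n i0 + i0 = d * n j + j := by
          have h6 : D.m * (d * n i0 + i0) = D.m * (d * n j + j) := by
            have h7 : D.e = d * D.m := rfl
            rw [h7] at h4
            have h8 : d * D.m * n i0 + D.m * i0 = d * D.m * n j + D.m * j := by omega
            calc D.m * (d * n i0 + i0) = d * D.m * n i0 + D.m * i0 := by ring
              _ = d * D.m * n j + D.m * j := h8
              _ = D.m * (d * n j + j) := by ring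
          exact Nat.eq_of_mul_eq_mul_left D.hm h6
        have h9 : (i0 : ℕ) = j := by
          have h10 := congrArg (· % d) h5
          simp only [Nat.mul_add_mod] at h10
          rwa [Nat.mod_eq_of_lt i0.isLt, Nat.mod_eq_of_lt j.isLt] at h10
        exact hj (Fin.ext h9.symm)
    · intro h
      exact absurd (Finset.mem_univ _) h
  rw [h0, coeff_zero] at h1
  exact (hnq i0 hx0).2 h1.symm

end Pool.Agent.H82.DV
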