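import Pool.Agent.H82.DV.Tw
import Pool.Agent.H82.DV.Co
import Pool.Agent.H82.DV.Nz
import Pool.Agent.H82.DV.Ct

/-!
# THEOREM DV: the main inequality

`v_i = ∑_k psi (Y i k) * pc k (η ei f)`, `Z Y = 1`, `ζ_i = ∑_k cm (algebraMap) (Z k i) * C (ω k)`. Then `η ei f = ∑_k cm (alg) (pc k (η ei f)) * C (ω k) = ∑_i cm (alg) v_i * psi ζ_i` (`pc_expand`, `pc k (η ei f) = ∑_i psi (Z k i) v_i`). If `∑ n_i > d (κ d + c)`, `count` gives `x ≠ 0` with all `RR x (ζ_i)` of order `≥ 1 - n_i`; then `η ei (Th x f) = PR x (η ei f) = ∑_i cm (alg) v_i * psi (RR x ζ_i)` (`intertwine`, `PR_sum`, `PR_lin`) has order `≥ e n_i + e (1 - n_i) = e ≥ 1`, but its order is `0 + order (ei (Th x f)) ≤ 0` (`Th_ne_zero`, `ei_low`, `HahnSeries.order_mul`).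
-/

set_option autoImplicit false

open Polynomial

namespace Pool.Agent.H82.DV

variable {F L : Type} [Field F] [Field L] [Algebra F L] {d : ℕ} (D : Data F L d)

/-- `η ei f` in terms of the linear forms -/
private theorem ma_expand (g : LaurentSeries L) (Y Z : Matrix (Fin d) (Fin d) (LaurentSeries F))
    (hZY : Z * Y = 1) :
    g = ∑ i, cm (algebraMap F L) (∑ k, psi F D.e (Y i k) * pc D.ω k g) *
      psi L D.e (∑ k, cm (algebraMap F L) (Z k i) * HahnSeries.C (D.ω k)) := by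
  have h1 : ∀ k, ∑ i, psi F D.e (Z k i) * (∑ j, psi F D.e (Y i j) * pc D.ω j g) =
      pc D.ω k g := by
    intro k
    simp only [Finset.mul_sum]
    rw [Finset.sum_comm]
    have h2 : ∀ j, ∑ i, psi F D.e (Z k i) * (psi F D.e (Y i j) * pc D.ω j g) =
        psi F D.e ((Z * Y) k j) * pc D.ω j g := by
      intro j
      rw [Matrix.mul_apply, map_sum, Finset.sum_mul]
      refine Finset.sum_congr rfl fun i _ => ?_
      rw [map_mul, mul_assoc]
    rw [Finset.sum_congr rfl fun j _ => h2 j, hZY, Finset.sum_eq_single k]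
    · rw [Matrix.one_apply_eq, map_one, one_mul]
    · intro j _ hj
      rw [Matrix.one_apply_ne (Ne.symm hj), map_zero, zero_mul]
    · intro h
      exact absurd (Finset.mem_univ _) h
  have h3 : ∀ i, psi L D.e (∑ k, cm (algebraMap F L) (Z k i) * HahnSeries.C (D.ω k)) =
      ∑ k, cm (algebraMap F L) (psi F D.e (Z k i)) * HahnSeries.C (D.ω k) := by
    intro i
    rw [map_sum]
    refine Finset.sum_congr rfl fun k _ => ?_
    rw [map_mul, psi_cm, psi_C]
  simp only [h3, Finset.mul_sum]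
  rw [Finset.sum_comm]
  have h4 : ∀ k, ∑ i, cm (algebraMap F L) (∑ j, psi F D.e (Y i j) * pc D.ω j g) *
      (cm (algebraMap F L) (psi F D.e (Z k i)) * HahnSeries.C (D.ω k)) =
      cm (algebraMap F L) (pc D.ω k g) * HahnSeries.C (D.ω k) := by
    intro k
    rw [← h1 k, map_sum, Finset.sum_mul]
    refine Finset.sum_congr rfl fun i _ => ?_
    rw [map_mul]
    ring
  rw [Finset.sum_congr rfl fun k _ => h4 k]
  exact pc_expand D.ω g

theorem main {α η : LaurentSeries L} (hα : B (-(D.κ : ℤ)) α) (hη : B 0 η)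
    (hη0 : η.coeff 0 = 1) (h : η * ei L D.b = psi L D.e α * cm (D.tw 1) η)
    (Y Z : Matrix (Fin d) (Fin d) (LaurentSeries F)) (hZY : Z * Y = 1) (c : ℤ)
    (hZ : ∀ i j, B (-c) (Z i j)) (f : L[X]) (hf : f ≠ 0) (n : Fin d → ℤ)
    (hn : ∀ i, B (D.e * n i) (∑ k, psi F D.e (Y i k) * pc D.ω k (η * ei L f))) :
    ∑ i, n i ≤ d * (D.κ * d + c) := by
  by_contra hcon
  rw [not_le] at hcon
  have hζ : ∀ j, B (-c) (∑ k, cm (algebraMap F L) (Z k j) * HahnSeries.C (D.ω k)) := by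
    intro j
    refine B_sum _ _ _ fun k _ => ?_
    have h1 := B_mul (B_cm (algebraMap F L) (hZ k j)) (B_C (D.ω k))
    rwa [add_zero] at h1
  obtain ⟨x, hx, hB⟩ := count D hα
    (fun j => ∑ k, cm (algebraMap F L) (Z k j) * HahnSeries.C (D.ω k)) c hζ n hcon
  have h1 := intertwine D h x f
  have h2 := congrArg (D.PR α x) (ma_expand D (η * ei L f) Y Z hZY)
  rw [PR_sum, Finset.sum_congr rfl fun i _ => PR_lin D α x _ _] at h2
  have h3 : B (D.e : ℤ) (D.PR α x (η * ei L f)) := by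
    rw [h2]
    refine B_sum _ _ _ fun i _ => ?_
    have h4 := B_mul (B_cm (algebraMap F L) (hn i)) (B_psi D.e (hB i))
    have h5 : (D.e : ℤ) * n i + D.e * (1 - n i) = D.e := by ring
    rwa [h5] at h4
  rw [← h1] at h3
  obtain ⟨e1, e2⟩ := ei_low (Th_ne_zero D hx hf)
  have hη1 : η ≠ 0 := by
    rintro rfl
    rw [HahnSeries.coeff_zero] at hη0
    exact zero_ne_one hη0
  have e3 : η.order ≤ 0 := HahnSeries.order_le_of_coeff_ne_zero (by rw [hη0]; exact one_ne_zero)
  have e4 := (B_order (mul_ne_zero hη1 e1) _).1 h3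
  rw [HahnSeries.order_mul hη1 e1] at e4
  have he : (0 : ℤ) < D.e := by exact_mod_cast Nat.pos_of_ne_zero (NeZero.ne D.e)
  omega

end Pool.Agent.H82.DV
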