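import Pool.Agent.H82.DV.Bs
import Pool.Agent.H82.DV.He

/-!
# THEOREM DV: the norm is onto on one-units

`α = 1 + θ γ` with `γ ∈ w F[[w]]`: `∏_i τ^i(α) = P(γ)` where `P(Y) = ∏_i (1 + τ^i(θ) Y)`. The coefficients of `P` are fixed by `τ` (`hτ`), so `P ∈ F[Y]` (`fix`); `P(0) = 1`, `P'(0) = ∑ τ^i θ = 1` (`hθ`). Solve `P(γ) = u` in `F[[w]]` with `γ ≡ 0` modulo `w` by `hensel` (file He). Finish with `HahnSeries.ofPowerSeries ℤ`.
-/

set_option autoImplicit false

open Polynomial

namespace Pool.Agent.H82.DV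

variable {F L : Type} [Field F] [Field L] [Algebra F L] {d : ℕ}

/-- `∏_i (1 + τ^i(θ) Y)` -/
private noncomputable def nsP (D : Data F L d) : L[X] :=
  ∏ i ∈ Finset.range d, (1 + C (D.tw i D.θ) * X)

private theorem ns_tw_succ (D : Data F L d) (i : ℕ) (x : L) : D.τ (D.tw i x) = D.tw (i + 1) x := by
  show D.τ ((D.τ ^ i : L ≃ₐ[F] L) x) = (D.τ ^ (i + 1) : L ≃ₐ[F] L) x
  rw [pow_succ']
  rfl

private theorem ns_tw_alg (D : Data F L d) (i : ℕ) (y : F) :
    D.tw i (algebraMap F L y) = algebraMap F L y :=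
  AlgEquiv.commutes (D.τ ^ i) y

private theorem ns_fixed (D : Data F L d) : (nsP D).map ((D.τ : L ≃ₐ[F] L) : L →+* L) = nsP D := by
  have h1 : (nsP D).map ((D.τ : L ≃ₐ[F] L) : L →+* L) =
      ∏ i ∈ Finset.range d, (1 + C (D.tw (i + 1) D.θ) * X) := by
    unfold nsP
    rw [Polynomial.map_prod]
    refine Finset.prod_congr rfl fun i _ => ?_
    rw [Polynomial.map_add, Polynomial.map_one, Polynomial.map_mul, map_C, map_X]
    show 1 + C (D.τ (D.tw i D.θ)) * X = _
    rw [ns_tw_succ]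
  rw [h1]
  unfold nsP
  have h2 := Finset.prod_range_succ (fun i => (1 + C (D.tw i D.θ) * X : L[X])) d
  have h3 := Finset.prod_range_succ' (fun i => (1 + C (D.tw i D.θ) * X : L[X])) d
  have h4 : D.tw d D.θ = D.tw 0 D.θ := by
    show (D.τ ^ d : L ≃ₐ[F] L) D.θ = (D.τ ^ 0 : L ≃ₐ[F] L) D.θ
    rw [D.hτ, pow_zero]
  rw [h3, h4] at h2
  have h5 : (1 + C (D.tw 0 D.θ) * X : L[X]) ≠ 0 := by
    intro h
    have h6 := congrArg (fun p : L[X] => p.coeff 0) h
    simp at h6
  exact mul_right_cancel₀ h5 h2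

private theorem ns_coeff_zero (D : Data F L d) : (nsP D).coeff 0 = 1 := by
  rw [coeff_zero_eq_eval_zero]
  unfold nsP
  rw [eval_prod]
  refine Finset.prod_eq_one fun i _ => ?_
  simp

private theorem ns_coeff_one_aux (f : ℕ → L) (n : ℕ) :
    (∏ i ∈ Finset.range n, (1 + C (f i) * X : L[X])).coeff 0 = 1 ∧
    (∏ i ∈ Finset.range n, (1 + C (f i) * X : L[X])).coeff 1 = ∑ i ∈ Finset.range n, f i := by
  induction n with
  | zero =>
    rw [Finset.prod_range_zero, Finset.sum_range_zero]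
    refine ⟨coeff_one_zero, ?_⟩
    rw [coeff_one, if_neg one_ne_zero]
  | succ n ih =>
    rw [Finset.prod_range_succ, Finset.sum_range_succ, mul_add, mul_one]
    constructor
    · rw [coeff_add, ih.1, ← mul_assoc, coeff_mul_X_zero, add_zero]
    · rw [coeff_add, ih.2, ← mul_assoc, coeff_mul_X, coeff_mul_C, ih.1, one_mul]

theorem norm_surj (D : Data F L d) (u : LaurentSeries F) (hu : B 0 u) (hu1 : u.coeff 0 = 1) :
    ∃ α : LaurentSeries L, B 0 α ∧ α.coeff 0 = 1 ∧ D.ai α d = cm (algebraMap F L) u := by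
  obtain ⟨P, hP⟩ : ∃ P : F[X], P.map (algebraMap F L) = nsP D := by
    have h1 : nsP D ∈ Polynomial.lifts (algebraMap F L) := by
      rw [Polynomial.lifts_iff_coeff_lifts]
      intro n
      have h2 : D.τ ((nsP D).coeff n) = (nsP D).coeff n := by
        have h3 := congrArg (fun p : L[X] => p.coeff n) (ns_fixed D)
        simp only [coeff_map] at h3
        exact h3
      obtain ⟨y, hy⟩ := D.fix _ h2
      exact ⟨y, hy⟩
    exact (Polynomial.mem_lifts _).1 h1
  have hinj : Function.Injective (algebraMap F L) := (algebraMap F L).injective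
  have h0 : P.coeff 0 = 1 := by
    apply hinj
    rw [← coeff_map, hP, ns_coeff_zero, map_one]
  have h1 : P.coeff 1 = 1 := by
    apply hinj
    rw [← coeff_map, hP, map_one]
    unfold nsP
    rw [(ns_coeff_one_aux (fun i => D.tw i D.θ) d).2]
    exact D.hθ
  obtain ⟨u', hu'⟩ : ∃ u' : PowerSeries F, HahnSeries.ofPowerSeries ℤ F u' = u := by
    refine ⟨PowerSeries.mk fun n => u.coeff n, ?_⟩
    ext n
    rw [PowerSeries.coeff_coe]
    split_ifs with h
    · exact (hu n h).symm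
    · rw [PowerSeries.coeff_mk]
      congr 1
      omega
  obtain ⟨γ, hγ0, hγ⟩ := hensel P h0 h1 u' (by
    rw [← PowerSeries.coeff_zero_eq_constantCoeff_apply]
    have h2 := congrArg (fun x : LaurentSeries F => x.coeff 0) hu'
    simp only [PowerSeries.coeff_coe] at h2
    rw [hu1] at h2
    simpa using h2)
  obtain ⟨g, hg⟩ : ∃ g : LaurentSeries F, g = HahnSeries.ofPowerSeries ℤ F γ := ⟨_, rfl⟩
  have hBg : B 0 g := by
    intro j hj
    rw [hg, PowerSeries.coeff_coe, if_pos hj]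
  have hg0 : g.coeff 0 = 0 := by
    rw [hg, PowerSeries.coeff_coe, if_neg (lt_irrefl 0)]
    rw [← PowerSeries.coeff_zero_eq_constantCoeff_apply] at hγ0
    exact hγ0
  obtain ⟨G, hG⟩ : ∃ G : LaurentSeries L, G = cm (algebraMap F L) g := ⟨_, rfl⟩
  have htwG : ∀ i, cm (D.tw i) G = G := by
    intro i
    rw [hG]
    ext n
    rw [cm_coeff, cm_coeff, ns_tw_alg]
  have hPu : eval₂ (HahnSeries.C : F →+* LaurentSeries F) g P = u := by
    rw [← hu', ← hγ, aeval_def, hom_eval₂, hg]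
    congr 1
    ext x : 1
    rw [RingHom.comp_apply, PowerSeries.algebraMap_apply, Algebra.algebraMap_self_apply,
      HahnSeries.ofPowerSeries_C]
  refine ⟨1 + HahnSeries.C D.θ * G, ?_, ?_, ?_⟩
  · refine B_add B_one ?_
    have h2 := B_mul (B_C D.θ) (hG ▸ B_cm (algebraMap F L) hBg : B 0 G)
    rwa [zero_add] at h2
  · rw [HahnSeries.coeff_add, HahnSeries.coeff_one, if_pos rfl]
    have h2 := B_mul_coeff (B_C D.θ) (hG ▸ B_cm (algebraMap F L) hBg : B 0 G)
    rw [zero_add] at h2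
    rw [h2, hG, cm_coeff, hg0, map_zero, mul_zero, add_zero]
  · have h2 : D.ai (1 + HahnSeries.C D.θ * G) d =
        eval₂ (HahnSeries.C : L →+* LaurentSeries L) G (nsP D) := by
      unfold Data.ai nsP
      rw [eval₂_finsetProd]
      refine Finset.prod_congr rfl fun i _ => ?_
      rw [map_add, map_one, map_mul, cm_C, htwG, eval₂_add, eval₂_one, eval₂_mul, eval₂_C, eval₂_X]
    rw [h2, ← hP, eval₂_map, ← hPu, hom_eval₂, hG]
    congr 1
    ext x : 1
    rw [RingHom.comp_apply, RingHom.comp_apply, cm_C]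

end Pool.Agent.H82.DV
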