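import Pool.Agent.H82.DV.An

/-!
# THEOREM DV: intertwining

`key`: `η * ei (bi i) = psi (ai α i) * cm (tw i) η`, induction on `i`: `bi (i+1) = bi i * b.map (tw i)`, `η ei(bi i) ei(b.map (tw i)) = psi(ai α i) cm(tw i)(η ei b) = psi(ai α i) cm(tw i)(psi α * cm(tw 1) η)`, `cm (tw i) (cm (tw 1) η) = cm (tw (i+1)) η`, `psi_cm`.
`intertwine`: `psi_ei` and `key` termwise. `PR_lin`: `cm (tw i)` fixes `cm (algebraMap F L) y` and commutes with `psi`.
-/

set_option autoImplicit false

open Polynomial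

namespace Pool.Agent.H82.DV

variable {F L : Type} [Field F] [Field L] [Algebra F L] {d : ℕ} (D : Data F L d)

theorem cm_tw_alg (i : ℕ) (y : LaurentSeries F) :
    cm (D.tw i) (cm (algebraMap F L) y) = cm (algebraMap F L) y := by
  ext n
  rw [cm_coeff, cm_coeff]
  exact (D.τ ^ i).commutes (y.coeff n)

theorem cm_tw_cm (i j : ℕ) (x : LaurentSeries L) :
    cm (D.tw i) (cm (D.tw j) x) = cm (D.tw (i + j)) x := by
  ext n
  rw [cm_coeff, cm_coeff, cm_coeff]
  show (D.τ ^ i) ((D.τ ^ j) (x.coeff n)) = (D.τ ^ (i + j)) (x.coeff n)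
  rw [pow_add]
  rfl

private theorem tw_cm_zero (x : LaurentSeries L) : cm (D.tw 0) x = x := by
  ext n
  rw [cm_coeff]
  show (D.τ ^ 0) (x.coeff n) = x.coeff n
  rw [pow_zero]
  rfl

theorem key {α η : LaurentSeries L} (h : η * ei L D.b = psi L D.e α * cm (D.tw 1) η) (i : ℕ) :
    η * ei L (D.bi i) = psi L D.e (D.ai α i) * cm (D.tw i) η := by
  induction i with
  | zero =>
    have h1 : D.bi 0 = 1 := rfl
    have h2 : D.ai α 0 = 1 := rfl
    rw [h1, h2, map_one, map_one, tw_cm_zero, mul_one, one_mul]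
  | succ i ih =>
    have h1 : D.bi (i + 1) = D.bi i * D.b.map (D.tw i) := Finset.prod_range_succ _ _
    have h2 : D.ai α (i + 1) = D.ai α i * cm (D.tw i) α := Finset.prod_range_succ _ _
    calc η * ei L (D.bi (i + 1)) = (η * ei L (D.bi i)) * ei L (D.b.map (D.tw i)) := by
          rw [h1, map_mul, mul_assoc]
      _ = psi L D.e (D.ai α i) * cm (D.tw i) (η * ei L D.b) := by
          rw [ih, ← cm_ei, map_mul (cm (D.tw i)), mul_assoc]
      _ = psi L D.e (D.ai α i) * (psi L D.e (cm (D.tw i) α) * cm (D.tw (i + 1)) η) := by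
          rw [h, map_mul (cm (D.tw i)), cm_tw_cm, psi_cm]
      _ = psi L D.e (D.ai α (i + 1)) * cm (D.tw (i + 1)) η := by
          rw [h2, map_mul (psi L D.e), mul_assoc]

theorem intertwine {α η : LaurentSeries L}
    (h : η * ei L D.b = psi L D.e α * cm (D.tw 1) η) (x : Fin d → L[X]) (f : L[X]) :
    η * ei L (D.Th x f) = D.PR α x (η * ei L f) := by
  unfold Data.Th Data.PR
  rw [map_sum, Finset.mul_sum]
  refine Finset.sum_congr rfl fun i _ => ?_
  have hk := key D h (i : ℕ)
  rw [map_mul (ei L), map_mul (ei L), ← psi_ei, ← cm_ei, map_mul (psi L D.e), map_mul (cm (D.tw i))]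
  calc η * (psi L D.e (ei L (x i)) * ei L (D.bi i) * cm (D.tw i) (ei L f)) =
      psi L D.e (ei L (x i)) * (η * ei L (D.bi i)) * cm (D.tw i) (ei L f) := by ring
    _ = psi L D.e (ei L (x i)) * (psi L D.e (D.ai α i) * cm (D.tw i) η) *
        cm (D.tw i) (ei L f) := by rw [hk]
    _ = _ := by ring

theorem PR_add (α : LaurentSeries L) (x : Fin d → L[X]) (g g' : LaurentSeries L) :
    D.PR α x (g + g') = D.PR α x g + D.PR α x g' := by
  unfold Data.PR
  rw [← Finset.sum_add_distrib]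
  refine Finset.sum_congr rfl fun i _ => ?_
  rw [map_add, mul_add]

theorem PR_sum (α : LaurentSeries L) (x : Fin d → L[X]) {ι : Type} (s : Finset ι)
    (g : ι → LaurentSeries L) : D.PR α x (∑ i ∈ s, g i) = ∑ i ∈ s, D.PR α x (g i) := by
  unfold Data.PR
  rw [Finset.sum_comm]
  refine Finset.sum_congr rfl fun i _ => ?_
  rw [map_sum, Finset.mul_sum]

theorem PR_lin (α : LaurentSeries L) (x : Fin d → L[X]) (y : LaurentSeries F)
    (g : LaurentSeries L) :
    D.PR α x (cm (algebraMap F L) y * psi L D.e g) =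
      cm (algebraMap F L) y * psi L D.e (D.RR α x g) := by
  unfold Data.PR Data.RR
  rw [map_sum, Finset.mul_sum]
  refine Finset.sum_congr rfl fun i _ => ?_
  rw [map_mul (cm (D.tw i)), cm_tw_alg, map_mul (psi L D.e) (ei L (x i) * D.ai α i), psi_cm]
  ring

end Pool.Agent.H82.DV
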